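import Pool.Agent.UBN.Fin

/-!
# The twists `a / z ^ d + c`
-/

set_option autoImplicit false

universe u

namespace UBN

open UBC Height NumberField IsDedekindDomain Polynomial

namespace TwA

/-- the second iterate of `a / z ^ d` -/
theorem sq {K : Type*} [Field K] {d : ℕ} (hd : d ≠ 0) {a : K} (ha : a ≠ 0) (z : K) :
    (fun z : K => a / z ^ d) ((fun z : K => a / z ^ d) z) = a / a ^ d * z ^ (d ^ 2) := by
  show a / (a / z ^ d) ^ d = a / a ^ d * z ^ (d ^ 2)
  rcases eq_or_ne z 0 with rfl | hz
  · rw [zero_pow hd, div_zero, zero_pow hd, div_zero, zero_pow (pow_ne_zero 2 hd), mul_zero]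
  · have h1 : z ^ d ≠ 0 := pow_ne_zero _ hz
    have h2 : a ^ d ≠ 0 := pow_ne_zero _ ha
    rw [div_pow, ← pow_mul, ← pow_two]
    field_simp

/-- the quotients of preperiodic points of `a / z ^ d` are preperiodic for `z ^ (d ^ 2)` -/
theorem iter_div {K : Type*} [Field K] {d : ℕ} (hd : d ≠ 0) {a : K} (ha : a ≠ 0) (x y : K)
    (k : ℕ) : (PowCyc.f (d ^ 2) (0 : K))^[k] (x / y) =
      (fun z : K => a / z ^ d)^[2 * k] x / (fun z : K => a / z ^ d)^[2 * k] y := by
  induction k with
  | zero => rfl
  | succ k ih =>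
    have h2 : ∀ x : K, (fun z : K => a / z ^ d)^[2 * (k + 1)] x =
        a / a ^ d * ((fun z : K => a / z ^ d)^[2 * k] x) ^ (d ^ 2) := by
      intro x
      rw [show 2 * (k + 1) = (2 * k + 1) + 1 by ring, Function.iterate_succ_apply',
        Function.iterate_succ_apply']
      exact sq hd ha _
    rw [Function.iterate_succ_apply', ih, h2, h2]
    simp only [PowCyc.f, add_zero, div_pow]
    rw [mul_div_mul_left _ _ (div_ne_zero ha (pow_ne_zero _ ha))]

end TwA

open TwA

theorem uniform (K : Type u) [Field K] [NumberField K] {d l : ℕ} (hd : 4 ≤ d) (hl : 2 ≤ l)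
    (hcop : Nat.Coprime l d) (h43 : ¬ (d = 4 ∧ l = 3)) (h52 : ¬ (d = 5 ∧ l = 2)) {lam0 : K}
    (hlam0 : lam0 ≠ 0) :
    ∃ B : ℕ, ∀ a b c : K, a ≠ 0 → a / c ^ (d + 1) = lam0 * b ^ l → ∀ P : Finset K,
      (∀ x ∈ P, PrePt (fun z : K => a / z ^ d + c) x) → P.card ≤ B := by
  classical
  obtain ⟨K1, _, _, _, ζ0, hζ0⟩ := exists_cyclotomic K d (by omega)
  set φ : K →+* K1 := algebraMap K K1 with hφ
  have hφinj : Function.Injective φ := φ.injective
  obtain ⟨B1, hB1⟩ := uniform_root K1 hd hl hcop h43 h52 hζ0 (lam0 := φ lam0)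
    ((_root_.map_ne_zero φ).mpr hlam0)
  -- the pure powers
  have hd2 : 2 ≤ d ^ 2 := le_trans (by omega) (Nat.le_self_pow two_ne_zero d)
  have hfin0 : {x : K | PowCyc.Pre (d ^ 2) 0 x}.Finite := PowCyc.finite_pre hd2 0
  refine ⟨B1 + (hfin0.toFinset.card + 1), fun a b c ha hab P hP => ?_⟩
  by_cases hc : c = 0
  · -- `c = 0`
    subst hc
    have hg : (fun z : K => a / z ^ d + 0) = fun z : K => a / z ^ d := by
      funext z; rw [add_zero]
    rw [hg] at hP
    have h1 : (P.erase 0).card ≤ hfin0.toFinset.card := by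
      rcases (P.erase 0).eq_empty_or_nonempty with he | ⟨y, hy⟩
      · rw [he]; simp
      · obtain ⟨hy0, hyP⟩ := Finset.mem_erase.1 hy
        refine Finset.card_le_card_of_injOn (fun x => x / y) ?_ ?_
        · intro x hx
          obtain ⟨_, hxP⟩ := Finset.mem_erase.1 hx
          simp only [Set.Finite.coe_toFinset, Set.mem_ofPred_eq]
          unfold PowCyc.Pre
          refine ((hP x hxP).image2 (fun u w => u / w) (hP y hyP)).subset ?_
          rintro _ ⟨k, rfl⟩
          simp only
          rw [iter_div (by omega) ha]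
          exact Set.mem_image2_of_mem ⟨2 * k, rfl⟩ ⟨2 * k, rfl⟩
        · intro x _ x' _ hxx
          exact (div_left_inj' hy0).1 hxx
    have h2 := Finset.pred_card_le_card_erase (s := P) (a := (0 : K))
    omega
  · -- `c ≠ 0`
    have hb : b ≠ 0 := by
      rintro rfl
      rw [zero_pow (by omega), mul_zero] at hab
      exact (div_ne_zero ha (pow_ne_zero _ hc)) hab
    have hsemi : Function.Semiconj (fun z : K => φ (z / c)) (fun z : K => a / z ^ d + c)
        (nw d (φ lam0 * φ b ^ l)) := by
      intro z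
      simp only [nw]
      rw [← map_pow, ← map_mul, ← hab, ← map_pow, ← map_div₀, ← map_one φ, ← map_add]
      congr 1
      rw [div_pow, pow_succ c d, add_div, div_self hc]
      congr 1
      rcases eq_or_ne z 0 with rfl | hz
      · rw [zero_pow (by omega), div_zero, zero_div, zero_div, div_zero]
      · field_simp
    have h1 := hB1 (φ b) ((_root_.map_ne_zero φ).mpr hb) (P.image fun z : K => φ (z / c)) (by
      intro y hy
      rw [Finset.mem_image] at hy
      obtain ⟨x, hx, rfl⟩ := hy
      exact (hP x hx).semiconj hsemi)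
    rw [Finset.card_image_of_injective _ (fun x y hxy => by
      exact (div_left_inj' hc).1 (hφinj hxy))] at h1
    omega

end UBN
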