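import Pool.Agent.UBN.Defs

/-!
# The family `z ↦ lam / z ^ d + 1` at an arbitrary place
-/

set_option autoImplicit false

namespace UBN

open UBC

namespace AnyVAux

variable {K : Type*} [Field K] (v : AbsoluteValue K ℝ) {d : ℕ} {lam : K}

theorem exists_kappa {d : ℕ} (hd : 2 ≤ d) :
    ∃ κ : ℝ, 0 < κ ∧ ∀ ω : K, ω ^ d = 1 → ω ≠ 1 → κ ≤ v (ω - 1) := by
  classical
  let S := ((Polynomial.nthRoots d (1 : K)).toFinset.filter (· ≠ 1))
  have hmem : ∀ ω : K, ω ^ d = 1 → ω ≠ 1 → ω ∈ S := by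
    intro ω h1 h2
    rw [Finset.mem_filter, Multiset.mem_toFinset, Polynomial.mem_nthRoots (by omega)]
    exact ⟨h1, h2⟩
  by_cases hS : S.Nonempty
  · obtain ⟨ω₀, h₀, hmin⟩ := S.exists_min_image (fun ω => v (ω - 1)) hS
    exact ⟨v (ω₀ - 1), v.pos (sub_ne_zero.2 (Finset.mem_filter.1 h₀).2), fun ω h1 h2 =>
      hmin ω (hmem ω h1 h2)⟩
  · exact ⟨1, one_pos, fun ω h1 h2 => absurd ⟨ω, hmem ω h1 h2⟩ hS⟩

theorem v_le {a : K} {r : ℝ} (h : v (a - 1) ≤ r) : v a ≤ 1 + r := by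
  have h1 := v.add_le (a - 1) 1
  rw [sub_add_cancel, v.map_one] at h1
  linarith

theorem le_v {a : K} {r : ℝ} (h : v (a - 1) ≤ r) : 1 - r ≤ v a := by
  have h1 := v.add_le a (1 - a)
  rw [add_sub_cancel, v.map_one, v.map_sub] at h1
  linarith

theorem sub_one {z : K} : v (nw d lam z - 1) = v lam / v z ^ d := by
  unfold nw
  rw [add_sub_cancel_right, map_div₀, map_pow]

theorem ne_zero_of {a : K} (h : v (a - 1) ≤ 1 / 2) : a ≠ 0 := by
  rintro rfl
  have := le_v v h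
  rw [map_zero] at this
  linarith

theorem contr (hη : v lam * (d * (3 / 2) ^ (d - 1) * 4 ^ d) ≤ 1 / 2) {a b : K}
    (ha : v (a - 1) ≤ 1 / 2) (hb : v (b - 1) ≤ 1 / 2) :
    v (nw d lam a - nw d lam b) ≤ 1 / 2 * v (a - b) := by
  have ha1 : v a ≤ 3 / 2 := by have := v_le v ha; linarith
  have hb1 : v b ≤ 3 / 2 := by have := v_le v hb; linarith
  have ha2 : 1 / 2 ≤ v a := by have := le_v v ha; linarith
  have hb2 : 1 / 2 ≤ v b := by have := le_v v hb; linarith
  have ha0 : a ≠ 0 := ne_zero_of v ha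
  have hb0 : b ≠ 0 := ne_zero_of v hb
  have hap : 0 < v a := v.pos ha0
  have hbp : 0 < v b := v.pos hb0
  rw [nw_sub ha0 hb0, map_div₀, map_mul, map_mul, map_pow, map_pow]
  have h1 : v (b ^ d - a ^ d) ≤ d * (3 / 2) ^ (d - 1) * v (a - b) := by
    rw [← geom_sum₂_mul, map_mul, v.map_sub b a]
    apply mul_le_mul_of_nonneg_right _ (v.nonneg _)
    calc v (∑ i ∈ Finset.range d, b ^ i * a ^ (d - 1 - i))
        ≤ ∑ i ∈ Finset.range d, v (b ^ i * a ^ (d - 1 - i)) := v.sum_le _ _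
      _ ≤ ∑ i ∈ Finset.range d, (3 / 2 : ℝ) ^ (d - 1) := by
        apply Finset.sum_le_sum
        intro i hi
        rw [map_mul, map_pow, map_pow]
        have h3 : (3 / 2 : ℝ) ^ (d - 1) = (3 / 2) ^ i * (3 / 2) ^ (d - 1 - i) := by
          rw [← pow_add]
          congr 1
          have := Finset.mem_range.1 hi
          omega
        rw [h3]
        gcongr
      _ = _ := by rw [Finset.sum_const, Finset.card_range, nsmul_eq_mul]
  have h2 : (1 / 4 : ℝ) ^ d ≤ v a ^ d * v b ^ d := by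
    rw [← mul_pow]
    apply pow_le_pow_left₀ (by norm_num)
    nlinarith
  have hpos : 0 < v a ^ d * v b ^ d := by positivity
  rw [div_le_iff₀ hpos]
  have h3 : v lam * (d * (3 / 2) ^ (d - 1)) ≤ 1 / 2 * (1 / 4) ^ d := by
    have h4 : (4 : ℝ) ^ d * (1 / 4) ^ d = 1 := by
      rw [← mul_pow]
      norm_num
    have h5 : (0 : ℝ) ≤ (1 / 4) ^ d := by positivity
    calc v lam * (d * (3 / 2) ^ (d - 1))
        = (v lam * (d * (3 / 2) ^ (d - 1) * 4 ^ d)) * (1 / 4) ^ d := by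
          linear_combination (-(v lam * (d * (3 / 2) ^ (d - 1)))) * h4
      _ ≤ 1 / 2 * (1 / 4) ^ d := mul_le_mul_of_nonneg_right hη h5
  have hl0 : 0 ≤ v lam := v.nonneg _
  have hab : 0 ≤ v (a - b) := v.nonneg _
  calc v lam * v (b ^ d - a ^ d)
      ≤ v lam * (d * (3 / 2) ^ (d - 1) * v (a - b)) := mul_le_mul_of_nonneg_left h1 hl0
    _ = (v lam * (d * (3 / 2) ^ (d - 1))) * v (a - b) := by ring
    _ ≤ (1 / 2 * (1 / 4) ^ d) * v (a - b) := mul_le_mul_of_nonneg_right h3 hab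
    _ = 1 / 2 * v (a - b) * (1 / 4) ^ d := by ring
    _ ≤ 1 / 2 * v (a - b) * (v a ^ d * v b ^ d) :=
        mul_le_mul_of_nonneg_left h2 (by positivity)

variable {R : ℝ}

theorem in1 (hR : 3 ≤ R) {z : K} (hz : z ≠ 0) (h : R * v lam ≤ v z ^ d) :
    v (nw d lam z - 1) ≤ 1 / R := by
  have hp : 0 < v z ^ d := pow_pos (v.pos hz) _
  rw [sub_one, div_le_div_iff₀ hp (by linarith)]
  linarith

theorem in2 (hR : 3 ≤ R) (hRl : R * v lam ≤ (1 / 2) ^ d) {z : K} (hz : v (z - 1) ≤ 1 / 2) :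
    v (nw d lam z - 1) ≤ 1 / R := by
  refine in1 v hR (ne_zero_of v hz) (hRl.trans ?_)
  have := le_v v hz
  apply pow_le_pow_left₀ (by norm_num)
  linarith

theorem oneR (hR : 3 ≤ R) : 1 / R ≤ 1 / 3 := by
  apply one_div_le_one_div_of_le (by norm_num) hR

theorem iter_in (hR : 3 ≤ R) (hRl : R * v lam ≤ (1 / 2) ^ d) {z : K} (hz : v (z - 1) ≤ 1 / R)
    (k : ℕ) : v ((nw d lam)^[k] z - 1) ≤ 1 / R := by
  induction k with
  | zero => exact hz
  | succ k ih =>
    rw [Function.iterate_succ_apply']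
    refine in2 v hR hRl (ih.trans ?_)
    have := oneR hR
    linarith

theorem iter_half (hR : 3 ≤ R) (hRl : R * v lam ≤ (1 / 2) ^ d) {z : K} (hz : v (z - 1) ≤ 1 / 2)
    (k : ℕ) : v ((nw d lam)^[k] z - 1) ≤ 1 / 2 := by
  induction k with
  | zero => exact hz
  | succ k ih =>
    rw [Function.iterate_succ_apply']
    refine (in2 v hR hRl ih).trans ?_
    have := oneR hR
    linarith

theorem per_fix (hR : 3 ≤ R) (hRl : R * v lam ≤ (1 / 2) ^ d)
    (hη : v lam * (d * (3 / 2) ^ (d - 1) * 4 ^ d) ≤ 1 / 2) {z : K} (hz : v (z - 1) ≤ 1 / 2)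
    (hp : PerPt (nw d lam) z) : nw d lam z = z := by
  obtain ⟨k, hk, hkz⟩ := hp
  have h1 : ∀ j : ℕ, v ((nw d lam)^[j + 1] z - (nw d lam)^[j] z) ≤
      (1 / 2) ^ j * v (nw d lam z - z) := by
    intro j
    induction j with
    | zero => simp
    | succ j ih =>
      rw [Function.iterate_succ_apply' _ (j + 1), Function.iterate_succ_apply' _ j]
      rw [Function.iterate_succ_apply' _ j] at ih
      refine (contr v hη ?_ (iter_half v hR hRl hz j)).trans ?_
      · have := iter_half v hR hRl hz (j + 1)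
        rwa [Function.iterate_succ_apply'] at this
      · rw [pow_succ']
        calc 1 / 2 * v (nw d lam ((nw d lam)^[j] z) - (nw d lam)^[j] z)
            ≤ 1 / 2 * ((1 / 2) ^ j * v (nw d lam z - z)) := by gcongr
          _ = _ := by ring
  have h2 := h1 k
  rw [Function.iterate_succ_apply', hkz] at h2
  have h3 : (1 / 2 : ℝ) ^ k ≤ 1 / 2 := by
    calc (1 / 2 : ℝ) ^ k ≤ (1 / 2) ^ 1 := pow_le_pow_of_le_one (by norm_num) (by norm_num) hk
      _ = 1 / 2 := pow_one _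
  have h4 : 0 ≤ v (nw d lam z - z) := v.nonneg _
  have h5 : v (nw d lam z - z) = 0 := by
    have : (1 / 2 : ℝ) ^ k * v (nw d lam z - z) ≤ 1 / 2 * v (nw d lam z - z) := by gcongr
    linarith
  exact sub_eq_zero.1 ((map_eq_zero v).1 h5)

theorem caseA (hR : 3 ≤ R) (hRl : R * v lam ≤ (1 / 2) ^ d)
    (hη : v lam * (d * (3 / 2) ^ (d - 1) * 4 ^ d) ≤ 1 / 2) (hlam : lam ≠ 0)
    (hκ : ∀ ω : K, ω ^ d = 1 → ω ≠ 1 → 4 / R < v (ω - 1)) {z : K} (hz : z ≠ 0)
    (h : R * v lam ≤ v z ^ d) (hp : PrePt (nw d lam) z) :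
    nw d lam (nw d lam z) = nw d lam z := by
  obtain ⟨y, hy⟩ : ∃ y, y = nw d lam z := ⟨_, rfl⟩
  have hy1 : v (y - 1) ≤ 1 / R := by rw [hy]; exact in1 v hR hz h
  have hR3 := oneR hR
  have key : ∀ m : ℕ, nw d lam ((nw d lam)^[m] y) = (nw d lam)^[m] y → nw d lam y = y := by
    intro m
    induction m with
    | zero => exact fun h => h
    | succ m ih =>
      intro h1
      apply ih
      have hq : v ((nw d lam)^[m] y - 1) ≤ 1 / R := iter_in v hR hRl hy1 m
      have hp' : v ((nw d lam)^[m + 1] y - 1) ≤ 1 / R := iter_in v hR hRl hy1 (m + 1)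
      rw [Function.iterate_succ_apply'] at h1 hp'
      obtain ⟨q, hqe⟩ : ∃ q, q = (nw d lam)^[m] y := ⟨_, rfl⟩
      rw [← hqe] at h1 hq hp' ⊢
      obtain ⟨p, hpe⟩ : ∃ p, p = nw d lam q := ⟨_, rfl⟩
      rw [← hpe] at h1 hp' ⊢
      by_contra hne
      have hq0 : q ≠ 0 := ne_zero_of v (by linarith)
      have hp0 : p ≠ 0 := ne_zero_of v (by linarith)
      have h2 : q ^ d = p ^ d := by
        rw [← nw_eq_iff hlam hq0 hp0, ← hpe, h1]
      have h3 : (q / p) ^ d = 1 := by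
        rw [div_pow, h2, div_self (pow_ne_zero _ hp0)]
      have h4 : q / p ≠ 1 := by
        intro h4
        rw [div_eq_one_iff_eq hp0] at h4
        exact hne h4.symm
      have h5 := hκ _ h3 h4
      have h6 : q / p - 1 = (q - p) / p := by
        field_simp
      have h7 : v (q - p) ≤ 2 / R := by
        have h8 := v.add_le (q - 1) (1 - p)
        rw [sub_add_sub_cancel, v.map_sub 1 p] at h8
        have h9 : 2 / R = 1 / R + 1 / R := by ring
        linarith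
      have h8 : 1 / 2 ≤ v p := by
        have := le_v v hp'
        linarith
      rw [h6, map_div₀, lt_div_iff₀ (by linarith)] at h5
      have h9 : 4 / R * (1 / 2) ≤ 4 / R * v p := by
        have : 0 ≤ 4 / R := by positivity
        gcongr
      have h10 : 4 / R * (1 / 2) = 2 / R := by ring
      linarith
  obtain ⟨m, hm⟩ := hp.exists_per
  rw [← hy]
  apply key m
  apply per_fix v hR hRl hη
  · exact iter_half v hR hRl (by linarith) m
  · have := hm.image
    rw [← Function.iterate_succ_apply' (nw d lam) m z, Function.iterate_succ_apply, ← hy] at this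
    exact this

theorem caseB (hd : 2 ≤ d) (hR : 3 ≤ R) (hRl : R * v lam ≤ (1 / 2) ^ d)
    (hη : v lam * (d * (3 / 2) ^ (d - 1) * 4 ^ d) ≤ 1 / 2) (hlam : lam ≠ 0)
    (hκ : ∀ ω : K, ω ^ d = 1 → ω ≠ 1 → 4 / R < v (ω - 1)) {z : K} (hz : z ≠ 0)
    (h : v z ^ d ≤ v lam / 3) (hp : PrePt (nw d lam) z) : False := by
  have hR3 := oneR hR
  have hvz : 0 < v z ^ d := pow_pos (v.pos hz) _
  have h1 : 3 ≤ v lam / v z ^ d := by
    rw [le_div_iff₀ hvz]
    linarith
  have h2 : 2 ≤ v (nw d lam z) := by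
    have h3 := v.add_le (nw d lam z) (-1)
    rw [← sub_eq_add_neg, sub_one, v.map_neg, v.map_one] at h3
    linarith
  have h0 : nw d lam z ≠ 0 := by
    intro h0
    rw [h0, map_zero] at h2
    linarith
  have h3 : R * v lam ≤ v (nw d lam z) ^ d := by
    have h4 : (1 / 2 : ℝ) ^ d ≤ 1 := pow_le_one₀ (by norm_num) (by norm_num)
    have h5 : (1 : ℝ) ≤ v (nw d lam z) ^ d := one_le_pow₀ (by linarith)
    linarith
  have h4 := caseA v hR hRl hη hlam hκ h0 h3 (pre_image hp)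
  have h5 := in1 v hR h0 h3
  have h6 : nw d lam (nw d lam z) ≠ 0 := ne_zero_of v (by linarith)
  rw [nw_eq_iff hlam h6 h0] at h4
  have h7 : v (nw d lam (nw d lam z)) ^ d = v (nw d lam z) ^ d := by
    rw [← map_pow, ← map_pow, h4]
  have h8 : v (nw d lam (nw d lam z)) = v (nw d lam z) :=
    (pow_left_inj₀ (v.nonneg _) (v.nonneg _) (by omega)).1 h7
  have h9 := v_le v h5
  rw [h8] at h9
  linarith

end AnyVAux

open AnyVAux in
theorem near_any {K : Type*} [Field K] (v : AbsoluteValue K ℝ) {d : ℕ} (hd : 2 ≤ d) :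
    ∃ B : ℝ, 1 ≤ B ∧ ∀ lam w x : K, lam ≠ 0 → Three d lam w → (Three d lam x ∨ Fixd d lam x) →
      w ^ d ≠ x ^ d →
      max (v lam⁻¹) 1 ≤ B * (max (v (w / x)⁻¹) 1 ^ d * max (v ((w / x) ^ d - 1)⁻¹) 1 ^ d) := by
  obtain ⟨κ, hκ0, hκ⟩ := exists_kappa v hd
  obtain ⟨R, hRe⟩ : ∃ R : ℝ, R = 3 + 4 / κ := ⟨_, rfl⟩
  have hκp : 0 < 4 / κ := by positivity
  have hR : 3 ≤ R := by linarith
  have hR0 : 0 < R := by linarith
  have hκR : 4 / R < κ := by
    rw [div_lt_iff₀ hR0, hRe]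
    have : κ * (3 + 4 / κ) = 3 * κ + 4 := by field_simp
    rw [this]
    linarith
  obtain ⟨c, hc⟩ : ∃ c : ℝ, c = d * (3 / 2) ^ (d - 1) * 4 ^ d := ⟨_, rfl⟩
  have hc0 : 0 < c := by
    have : (0 : ℝ) < d := by exact_mod_cast (by omega : 0 < d)
    rw [hc]
    positivity
  obtain ⟨η, hη0, hη1, hη2⟩ : ∃ η : ℝ, 0 < η ∧ R * η ≤ (1 / 2) ^ d ∧ η * c ≤ 1 / 2 := by
    refine ⟨min ((1 / 2) ^ d / R) (1 / 2 / c), lt_min (by positivity) (by positivity), ?_, ?_⟩
    · calc R * min ((1 / 2) ^ d / R) (1 / 2 / c) ≤ R * ((1 / 2) ^ d / R) := by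
            gcongr
            exact min_le_left _ _
        _ = (1 / 2) ^ d := by field_simp
    · calc min ((1 / 2) ^ d / R) (1 / 2 / c) * c ≤ 1 / 2 / c * c := by
            gcongr
            exact min_le_right _ _
        _ = 1 / 2 := by field_simp
  have hη3 : η ≤ 1 := by
    have h1 : (1 / 2 : ℝ) ^ d ≤ 1 := pow_le_one₀ (by norm_num) (by norm_num)
    nlinarith
  obtain ⟨B, hB⟩ : ∃ B : ℝ, B = 1 / η + 2 ^ d * R ^ (d + 1) := ⟨_, rfl⟩
  have hBη : 1 / η ≤ B := by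
    have : (0 : ℝ) ≤ 2 ^ d * R ^ (d + 1) := by positivity
    linarith
  have hBR : 2 ^ d * R ^ (d + 1) ≤ B := by
    have : (0 : ℝ) ≤ 1 / η := by positivity
    linarith
  have hB1 : 1 ≤ B := by
    have : 1 ≤ 1 / η := by
      rw [le_div_iff₀ hη0]
      linarith
    linarith
  refine ⟨B, hB1, ?_⟩
  intro lam w x hlam hw hx hne
  have hP1 : (1 : ℝ) ≤ max (v (w / x)⁻¹) 1 ^ d := one_le_pow₀ (le_max_right _ _)
  have hP2 : (1 : ℝ) ≤ max (v ((w / x) ^ d - 1)⁻¹) 1 ^ d := one_le_pow₀ (le_max_right _ _)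
  have hB0 : 0 ≤ B := by linarith
  have hl0 : 0 < v lam := v.pos hlam
  have hP12 : 1 ≤ max (v (w / x)⁻¹) 1 ^ d * max (v ((w / x) ^ d - 1)⁻¹) 1 ^ d := by
    nlinarith
  have hone : 1 ≤ B * (max (v (w / x)⁻¹) 1 ^ d * max (v ((w / x) ^ d - 1)⁻¹) 1 ^ d) := by
    nlinarith
  apply max_le _ hone
  rw [map_inv₀]
  by_cases hlη : v lam ≤ η
  swap
  · have h1 : (v lam)⁻¹ ≤ 1 / η := by
      rw [one_div]
      exact inv_anti₀ hη0 (not_le.1 hlη).le
    calc (v lam)⁻¹ ≤ B := h1.trans hBη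
      _ = B * 1 := (mul_one B).symm
      _ ≤ _ := mul_le_mul_of_nonneg_left hP12 hB0
  have hRl : R * v lam ≤ (1 / 2) ^ d := (mul_le_mul_of_nonneg_left hlη hR0.le).trans hη1
  have hη' : v lam * (d * (3 / 2) ^ (d - 1) * 4 ^ d) ≤ 1 / 2 := by
    rw [← hc]
    exact (mul_le_mul_of_nonneg_right hlη hc0.le).trans hη2
  have hκ' : ∀ ω : K, ω ^ d = 1 → ω ≠ 1 → 4 / R < v (ω - 1) := fun ω h1 h2 =>
    hκR.trans_le (hκ ω h1 h2)
  have htwo : ∀ z : K, Two d lam z → v z ^ d < R * v lam := by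
    intro z hz
    by_contra h
    exact hz.two (caseA v hR hRl hη' hlam hκ' hz.ne0 (not_lt.1 h) hz.pre)
  have hw0 : w ≠ 0 := hw.ne0
  have hvw : 0 < v w := v.pos hw0
  have hx0 : x ≠ 0 := by
    rcases hx with hx | hx
    · exact hx.ne0
    · exact hx.ne
  have hvx : 0 < v x := v.pos hx0
  have hww := htwo w hw.toTwo
  have hwF := htwo _ hw.image
  have hbig : R * 2 ^ d ≤ B := by
    refine le_trans ?_ hBR
    rw [mul_comm]
    gcongr
    calc R = R ^ 1 := (pow_one R).symm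
      _ ≤ R ^ (d + 1) := pow_le_pow_right₀ (by linarith) (by omega)
  by_cases hxs : v (nw d lam x) ^ d < R * v lam
  · -- both images are small
    have hdiff : (w / x) ^ d - 1 = -((nw d lam w - nw d lam x) * w ^ d / lam) := by
      rw [nw_sub hw0 hx0]
      have h1 : w ^ d ≠ 0 := pow_ne_zero _ hw0
      have h2 : x ^ d ≠ 0 := pow_ne_zero _ hx0
      rw [div_pow]
      field_simp
      ring
    have hval : v ((w / x) ^ d - 1) ≤ R * v (nw d lam w - nw d lam x) := by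
      rw [hdiff, v.map_neg, map_div₀, map_mul, map_pow, div_le_iff₀ hl0]
      have h3 : 0 ≤ v (nw d lam w - nw d lam x) := v.nonneg _
      calc v (nw d lam w - nw d lam x) * v w ^ d
          ≤ v (nw d lam w - nw d lam x) * (R * v lam) := mul_le_mul_of_nonneg_left hww.le h3
        _ = _ := by ring
    have hsum : v (nw d lam w - nw d lam x) ^ d ≤ 2 ^ d * (R * v lam) := by
      have h1 : v (nw d lam w - nw d lam x) ≤ 2 * max (v (nw d lam w)) (v (nw d lam x)) := by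
        have h2 := v.add_le (nw d lam w) (-(nw d lam x))
        rw [← sub_eq_add_neg, v.map_neg] at h2
        have h3 := le_max_left (v (nw d lam w)) (v (nw d lam x))
        have h4 := le_max_right (v (nw d lam w)) (v (nw d lam x))
        linarith
      calc v (nw d lam w - nw d lam x) ^ d
          ≤ (2 * max (v (nw d lam w)) (v (nw d lam x))) ^ d :=
            pow_le_pow_left₀ (v.nonneg _) h1 _
        _ = 2 ^ d * max (v (nw d lam w)) (v (nw d lam x)) ^ d := mul_pow _ _ _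
        _ ≤ 2 ^ d * (R * v lam) := by
            gcongr
            rcases max_choice (v (nw d lam w)) (v (nw d lam x)) with h5 | h5
            · rw [h5]; exact hwF.le
            · rw [h5]; exact hxs.le
    have hne' : (w / x) ^ d - 1 ≠ 0 := by
      intro h
      rw [sub_eq_zero, div_pow, div_eq_one_iff_eq (pow_ne_zero _ hx0)] at h
      exact hne h
    have hvp : 0 < v ((w / x) ^ d - 1) := v.pos hne'
    have hfin : v ((w / x) ^ d - 1) ^ d ≤ 2 ^ d * R ^ (d + 1) * v lam := by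
      calc v ((w / x) ^ d - 1) ^ d ≤ (R * v (nw d lam w - nw d lam x)) ^ d :=
            pow_le_pow_left₀ hvp.le hval _
        _ = R ^ d * v (nw d lam w - nw d lam x) ^ d := mul_pow _ _ _
        _ ≤ R ^ d * (2 ^ d * (R * v lam)) := by gcongr
        _ = _ := by ring
    have hfin2 : (v lam)⁻¹ ≤ 2 ^ d * R ^ (d + 1) * v ((w / x) ^ d - 1)⁻¹ ^ d := by
      rw [map_inv₀, inv_pow, ← div_eq_mul_inv, le_div_iff₀ (pow_pos hvp _),
        inv_mul_le_iff₀ hl0]
      calc v ((w / x) ^ d - 1) ^ d ≤ 2 ^ d * R ^ (d + 1) * v lam := hfin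
        _ = _ := by ring
    calc (v lam)⁻¹ ≤ 2 ^ d * R ^ (d + 1) * v ((w / x) ^ d - 1)⁻¹ ^ d := hfin2
      _ ≤ B * max (v ((w / x) ^ d - 1)⁻¹) 1 ^ d := by
          gcongr
          exact le_max_left _ _
      _ = B * (1 * max (v ((w / x) ^ d - 1)⁻¹) 1 ^ d) := by rw [one_mul]
      _ ≤ _ := by gcongr
  · -- `x` is a fixed point near `1`
    have hxf : Fixd d lam x := by
      rcases hx with hx | hx
      · exact absurd (htwo _ hx.image) hxs
      · exact hx
    rw [hxf.fix] at hxs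
    have h1 := in1 v hR hx0 (not_lt.1 hxs)
    rw [hxf.fix] at h1
    have hR3 := oneR hR
    have h2 : 1 / 2 ≤ v x := by
      have := le_v v h1
      linarith
    have h3 : v (w / x) ^ d ≤ R * 2 ^ d * v lam := by
      rw [map_div₀, div_pow, div_le_iff₀ (pow_pos hvx _)]
      have h4 : 1 ≤ 2 ^ d * v x ^ d := by
        rw [← mul_pow]
        exact one_le_pow₀ (by linarith)
      have h5 : 0 ≤ R * v lam := by positivity
      calc v w ^ d ≤ R * v lam := hww.le
        _ = R * v lam * 1 := (mul_one _).symm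
        _ ≤ R * v lam * (2 ^ d * v x ^ d) := mul_le_mul_of_nonneg_left h4 h5
        _ = _ := by ring
    have hvp : 0 < v (w / x) := v.pos (div_ne_zero hw0 hx0)
    have h4 : (v lam)⁻¹ ≤ R * 2 ^ d * v (w / x)⁻¹ ^ d := by
      rw [map_inv₀, inv_pow, ← div_eq_mul_inv, le_div_iff₀ (pow_pos hvp _),
        inv_mul_le_iff₀ hl0]
      calc v (w / x) ^ d ≤ R * 2 ^ d * v lam := h3
        _ = _ := by ring
    calc (v lam)⁻¹ ≤ R * 2 ^ d * v (w / x)⁻¹ ^ d := h4
      _ ≤ B * max (v (w / x)⁻¹) 1 ^ d := by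
          gcongr
          exact le_max_left _ _
      _ = B * (max (v (w / x)⁻¹) 1 ^ d * 1) := by rw [mul_one]
      _ ≤ _ := by gcongr

end UBN
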