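import Pool.Agent.UBN.Defs
import Pool.Agent.UBC.LocPerTw
import Pool.Agent.UBC.LocTailTw

/-!
# The places at which the parameter of `z ↦ lam / z ^ d + 1` is small
-/

set_option autoImplicit false
set_option linter.unusedVariables false

namespace UBN

open UBC WithZero

namespace BadAux

variable {K : Type*} [Field K] (v : Valuation K ℤᵐ⁰) {d : ℕ} {lam : K}

/-- difference of two images of close points -/
theorem close (hd : 2 ≤ d) (hvd : v (d : K) = 1) {g : ℤᵐ⁰} (hg : g ≠ 0) {a b ζ : K}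
    (ha : v a = g) (hb : v b = g) (hζ : ζ ^ d = 1) (hlt : v (a - ζ * b) < g) :
    v (nw d lam a - nw d lam b) * g ^ (d + 1) = v lam * v (a - ζ * b) := by
  have ha0 : a ≠ 0 := by
    rintro rfl
    rw [map_zero] at ha
    exact hg ha.symm
  have hb0 : b ≠ 0 := by
    rintro rfl
    rw [map_zero] at hb
    exact hg hb.symm
  have h2 := PowCyc.G_mul d a (ζ * b)
  rw [mul_pow, hζ, one_mul] at h2
  have h3 := PowCyc.Loc_close v hd hvd ha hg hlt
  have h4 : v (b ^ d - a ^ d) = g ^ (d - 1) * v (a - ζ * b) := by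
    rw [Valuation.map_sub_swap, ← h2, map_mul, h3]
  have h5 : v (nw d lam a - nw d lam b) * (g ^ d * g ^ d) =
      v lam * (g ^ (d - 1) * v (a - ζ * b)) := by
    rw [nw_sub ha0 hb0, map_div₀, map_mul, map_mul, map_pow, map_pow, ha, hb, h4,
      div_mul_cancel₀]
    exact mul_ne_zero (pow_ne_zero _ hg) (pow_ne_zero _ hg)
  have h6 : g ^ d * g ^ d = g ^ (d - 1) * g ^ (d + 1) := by
    rw [← pow_add, ← pow_add]
    congr 1
    omega
  have h7 : g ^ (d - 1) ≠ 0 := pow_ne_zero _ hg
  apply mul_left_cancel₀ h7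
  rw [h6] at h5
  calc g ^ (d - 1) * (v (nw d lam a - nw d lam b) * g ^ (d + 1)) =
        v (nw d lam a - nw d lam b) * (g ^ (d - 1) * g ^ (d + 1)) := mul_left_comm _ _ _
    _ = v lam * (g ^ (d - 1) * v (a - ζ * b)) := h5
    _ = _ := mul_left_comm _ _ _

/-- a point which is close to `1` has value `1` -/
theorem val_one {z : K} (h : v (z - 1) < 1) : v z = 1 := by
  have h1 : v (1 : K) = v z := by
    have h2 := Valuation.map_sub_eq_of_lt_right v (x := z - 1) (y := z) ?_
    · rw [sub_sub_cancel_left, Valuation.map_neg] at h2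
      exact h2
    · by_contra h3
      rw [not_lt] at h3
      have h4 : v (z - (z - 1)) ≤ v (z - 1) := by
        refine (Valuation.map_sub v _ _).trans (max_le h3 le_rfl)
      rw [sub_sub_cancel, map_one] at h4
      exact absurd h (not_lt.2 h4)
  rw [← h1, map_one]

theorem nw_sub_one {z : K} : nw d lam z - 1 = lam / z ^ d := by
  unfold nw
  ring

/-- large points are mapped near `1` -/
theorem near_one (hd : 2 ≤ d) {z : K} (hz : z ≠ 0) (h : v lam < v z ^ d) :
    v (nw d lam z - 1) < 1 := by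
  rw [nw_sub_one, map_div₀, map_pow]
  have h1 : 0 < v z ^ d := pow_pos (zero_lt_iff.2 ((Valuation.ne_zero_iff v).2 hz)) _
  rwa [div_lt_one₀ h1]

/-- contraction near `1` -/
theorem contr (hd : 2 ≤ d) (hvd : v (d : K) = 1) {a b : K} (ha : v (a - 1) < 1)
    (hb : v (b - 1) < 1) : v (nw d lam a - nw d lam b) = v lam * v (a - b) := by
  have h1 : v (a - 1 * b) < 1 := by
    rw [one_mul]
    have h2 : a - b = (a - 1) - (b - 1) := by ring
    rw [h2]
    exact (Valuation.map_sub v _ _).trans_lt (max_lt ha hb)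
  have h2 := close (lam := lam) v hd hvd one_ne_zero (val_one v ha) (val_one v hb) (one_pow d) h1
  rw [one_pow, mul_one, one_mul] at h2
  exact h2

/-- the disc around `1` is mapped into itself -/
theorem disc (hd : 2 ≤ d) (hl : v lam < 1) {a : K} (ha : v (a - 1) < 1) :
    v (nw d lam a - 1) < 1 := by
  have h1 := val_one v ha
  refine near_one v hd ?_ ?_
  · rintro rfl
    rw [map_zero] at h1
    exact zero_ne_one h1
  · rw [h1, one_pow]
    exact hl

theorem disc_iter (hd : 2 ≤ d) (hl : v lam < 1) {a : K} (ha : v (a - 1) < 1) (k : ℕ) :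
    v ((nw d lam)^[k] a - 1) < 1 := by
  induction k with
  | zero => exact ha
  | succ k ih =>
    rw [Function.iterate_succ_apply']
    exact disc v hd hl ih

theorem contr_iter (hd : 2 ≤ d) (hvd : v (d : K) = 1) (hl : v lam < 1) {a b : K}
    (ha : v (a - 1) < 1) (hb : v (b - 1) < 1) (k : ℕ) :
    v ((nw d lam)^[k] a - (nw d lam)^[k] b) = v lam ^ k * v (a - b) := by
  induction k with
  | zero => simp
  | succ k ih =>
    rw [Function.iterate_succ_apply', Function.iterate_succ_apply',
      contr v hd hvd (disc_iter v hd hl ha k) (disc_iter v hd hl hb k), ih, pow_succ', mul_assoc]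

/-- a preperiodic point in the disc is fixed -/
theorem fix_of_disc (hd : 2 ≤ d) (hvd : v (d : K) = 1) (hlam : lam ≠ 0) (hl : v lam < 1) {a : K}
    (ha : v (a - 1) < 1) (hp : PrePt (nw d lam) a) : nw d lam a = a := by
  have hl0 : v lam ≠ 0 := (Valuation.ne_zero_iff v).2 hlam
  obtain ⟨m, n, hn, hmn⟩ := hp.exists_per
  have h1 : v ((nw d lam)^[n] a - a) = 0 := by
    have h2 := contr_iter v hd hvd hl (disc_iter v hd hl ha n) ha m
    rw [← Function.iterate_add_apply, add_comm m n, Function.iterate_add_apply, hmn, sub_self,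
      map_zero] at h2
    exact (mul_eq_zero.1 h2.symm).resolve_left (pow_ne_zero _ hl0)
  have h2 : (nw d lam)^[n] a = a := sub_eq_zero.1 ((map_eq_zero v).1 h1)
  have h3 := contr_iter v hd hvd hl (disc v hd hl ha) ha n
  rw [← Function.iterate_succ_apply, Function.iterate_succ_apply', h2] at h3
  by_contra hne
  have h4 : v (nw d lam a - a) ≠ 0 := (Valuation.ne_zero_iff v).2 (sub_ne_zero.2 hne)
  have h5 : v lam ^ n < 1 := pow_lt_one₀ zero_le hl hn.ne'
  have h6 : v lam ^ n * v (nw d lam a - a) < 1 * v (nw d lam a - a) :=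
    mul_lt_mul_of_pos_right h5 (zero_lt_iff.2 h4)
  rw [← h3, one_mul] at h6
  exact lt_irrefl _ h6

/-- the image of a large preperiodic point is fixed -/
theorem fix_of_large (hd : 2 ≤ d) (hvd : v (d : K) = 1) (hlam : lam ≠ 0) (hl : v lam < 1) {z : K}
    (hz : z ≠ 0) (hp : PrePt (nw d lam) z) (h : v lam < v z ^ d) :
    nw d lam (nw d lam z) = nw d lam z :=
  fix_of_disc v hd hvd hlam hl (near_one v hd hz h) (pre_image hp)

/-- a large preperiodic point has value one -/
theorem one_of_large (hd : 2 ≤ d) (hvd : v (d : K) = 1) (hlam : lam ≠ 0) (hl : v lam < 1) {z : K}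
    (hz : z ≠ 0) (hp : PrePt (nw d lam) z) (h : v lam < v z ^ d) : v z = 1 := by
  have h1 := fix_of_large v hd hvd hlam hl hz hp h
  have h2 := val_one v (near_one v hd hz h)
  have h3 : nw d lam z ≠ 0 := by
    intro h0
    rw [h0, map_zero] at h2
    exact zero_ne_one h2
  have h4 := (nw_eq_iff hlam h3 hz).1 h1
  have h5 := congrArg v h4
  rw [map_pow, map_pow, h2, one_pow] at h5
  have h6 : v z ^ d = 1 ^ d := by rw [one_pow]; exact h5.symm
  exact (pow_left_inj₀ zero_le zero_le (by omega)).1 h6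

/-- no preperiodic point is too small -/
theorem not_small (hd : 2 ≤ d) (hvd : v (d : K) = 1) (hlam : lam ≠ 0) (hl : v lam < 1) {z : K}
    (hz : z ≠ 0) (hp : PrePt (nw d lam) z) : v lam ≤ v z ^ d := by
  by_contra h
  rw [not_le] at h
  have hz0 : 0 < v z ^ d := pow_pos (zero_lt_iff.2 ((Valuation.ne_zero_iff v).2 hz)) _
  have h1 : 1 < v (lam / z ^ d) := by
    rw [map_div₀, map_pow, one_lt_div₀ hz0]
    exact h
  have h2 : v (nw d lam z) = v (lam / z ^ d) := by
    unfold nw
    refine Valuation.map_add_eq_of_lt_left v ?_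
    rw [map_one]
    exact h1
  have h3 : 1 < v (nw d lam z) := by rw [h2]; exact h1
  have h4 : nw d lam z ≠ 0 := by
    intro h0
    rw [h0, map_zero] at h3
    exact absurd h3 (not_lt.2 zero_le)
  have h5 : v lam < v (nw d lam z) ^ d := hl.trans_le (one_le_pow₀ h3.le)
  have h6 := one_of_large v hd hvd hlam hl h4 (pre_image hp) h5
  rw [h6] at h3
  exact lt_irrefl _ h3

/-- the two kinds of preperiodic points -/
theorem dicho (hd : 2 ≤ d) (hvd : v (d : K) = 1) (hlam : lam ≠ 0) (hl : v lam < 1) {z : K}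
    (hz : z ≠ 0) (hp : PrePt (nw d lam) z) : v z ^ d = v lam ∨
      (v z = 1 ∧ v (nw d lam z - 1) < 1 ∧ nw d lam (nw d lam z) = nw d lam z) := by
  rcases (not_small v hd hvd hlam hl hz hp).eq_or_lt with h | h
  · exact Or.inl h.symm
  · exact Or.inr ⟨one_of_large v hd hvd hlam hl hz hp h, near_one v hd hz h,
      fix_of_large v hd hvd hlam hl hz hp h⟩

theorem fix_unique (hd : 2 ≤ d) (hvd : v (d : K) = 1) (hlam : lam ≠ 0) (hl : v lam < 1) {a b : K}
    (ha : v (a - 1) < 1) (hb : v (b - 1) < 1) (hfa : nw d lam a = a) (hfb : nw d lam b = b) :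
    a = b := by
  by_contra hne
  have h1 := contr (lam := lam) v hd hvd ha hb
  rw [hfa, hfb] at h1
  have h4 : v (a - b) ≠ 0 := (Valuation.ne_zero_iff v).2 (sub_ne_zero.2 hne)
  have h6 : v lam * v (a - b) < 1 * v (a - b) :=
    mul_lt_mul_of_pos_right hl (zero_lt_iff.2 h4)
  rw [← h1, one_mul] at h6
  exact lt_irrefl _ h6

/-- one step for two points of value `g` -/
theorem step (hd : 2 ≤ d) (hvd : v (d : K) = 1) {g : ℤᵐ⁰} (hg : g ≠ 0) (hgl : g ^ d = v lam)
    {a b ζ : K} (ha : v a = g) (hb : v b = g) (hζ : ζ ^ d = 1) :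
    v (a - ζ * b) = g ∨ (v (a - ζ * b) < g ∧
      v (a - ζ * b) = g * v (nw d lam a - nw d lam b)) := by
  have h1 : v (a - ζ * b) ≤ g := by
    refine (Valuation.map_sub v _ _).trans (max_le ha.le ?_)
    rw [map_mul, LocTailTwAux.val_root v hd hζ, one_mul]
    exact hb.le
  rcases h1.eq_or_lt with h | h
  · exact Or.inl h
  · right
    refine ⟨h, ?_⟩
    have h2 := close (lam := lam) v hd hvd hg ha hb hζ h
    rw [← hgl, pow_succ] at h2
    have h3 : g ^ d ≠ 0 := pow_ne_zero _ hg
    apply mul_left_cancel₀ h3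
    rw [← h2, mul_comm, mul_comm g, mul_assoc, mul_comm g]

/-- the difference of two preperiodic points is a power of `g` -/
theorem claim (hd : 2 ≤ d) (hvd : v (d : K) = 1) (hlam : lam ≠ 0) (hl : v lam < 1) {g : ℤᵐ⁰}
    (hgl : g ^ d = v lam) {y y' : K} (hy : PrePt (nw d lam) y) (hy' : PrePt (nw d lam) y')
    (h0 : ∀ k : ℕ, (nw d lam)^[k] y ≠ 0) (h0' : ∀ k : ℕ, (nw d lam)^[k] y' ≠ 0) (hne : y ≠ y') :
    ∃ m : ℕ, v (y - y') = g ^ m := by
  have hd0 : d ≠ 0 := by omega
  have hg : g ≠ 0 := by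
    rintro rfl
    rw [zero_pow hd0] at hgl
    exact (Valuation.ne_zero_iff v).2 hlam hgl.symm
  have hg1 : g < 1 := by
    by_contra h
    rw [not_lt] at h
    have h1 : 1 ≤ g ^ d := one_le_pow₀ h
    rw [hgl] at h1
    exact absurd hl (not_lt.2 h1)
  have hpre : ∀ {z : K}, PrePt (nw d lam) z → ∀ k, PrePt (nw d lam) ((nw d lam)^[k] z) := by
    intro z hz k
    induction k with
    | zero => exact hz
    | succ k ih => rw [Function.iterate_succ_apply']; exact pre_image ih
  by_contra hcon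
  push Not at hcon
  have key : ∀ k : ℕ, v ((nw d lam)^[k] y - (nw d lam)^[k] y') ≠ 0 ∧
      v (y - y') = g ^ k * v ((nw d lam)^[k] y - (nw d lam)^[k] y') →
      v ((nw d lam)^[k] y - (nw d lam)^[k] y') =
        g * v ((nw d lam)^[k + 1] y - (nw d lam)^[k + 1] y') := by
    rintro k ⟨hk1, hk2⟩
    set a := (nw d lam)^[k] y with ha
    set b := (nw d lam)^[k] y' with hb
    rw [Function.iterate_succ_apply', Function.iterate_succ_apply', ← ha, ← hb]
    have hone : v (a - b) ≠ 1 := by
      intro h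
      rw [h, mul_one] at hk2
      exact hcon k hk2
    rcases dicho v hd hvd hlam hl (h0 k) (hpre hy k) with h1 | ⟨h1, h2, h3⟩
    · rcases dicho v hd hvd hlam hl (h0' k) (hpre hy' k) with h1' | ⟨h1', h2', h3'⟩
      · have e1 : v a = g := (pow_left_inj₀ zero_le zero_le hd0).1 (h1.trans hgl.symm)
        have e2 : v b = g := (pow_left_inj₀ zero_le zero_le hd0).1 (h1'.trans hgl.symm)
        rcases step (lam := lam) v hd hvd hg hgl e1 e2 (one_pow d) with h | ⟨-, h⟩
        · rw [one_mul] at h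
          rw [h, ← pow_succ] at hk2
          exact absurd hk2 (hcon (k + 1))
        · rw [one_mul] at h
          exact h
      · exfalso
        apply hone
        have e1 : v a < 1 := by
          by_contra h
          rw [not_lt] at h
          have h5 : 1 ≤ v a ^ d := one_le_pow₀ h
          rw [h1] at h5
          exact absurd hl (not_lt.2 h5)
        rw [Valuation.map_sub_eq_of_lt_right v (by rw [h1']; exact e1), h1']
    · rcases dicho v hd hvd hlam hl (h0' k) (hpre hy' k) with h1' | ⟨h1', h2', h3'⟩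
      · exfalso
        apply hone
        have e1 : v b < 1 := by
          by_contra h
          rw [not_lt] at h
          have h5 : 1 ≤ v b ^ d := one_le_pow₀ h
          rw [h1'] at h5
          exact absurd hl (not_lt.2 h5)
        rw [Valuation.map_sub_eq_of_lt_left v (by rw [h1]; exact e1), h1]
      · exfalso
        have hp := fix_unique v hd hvd hlam hl h2 h2' h3 h3'
        have hab := (nw_eq_iff hlam (h0 k) (h0' k)).1 hp
        rw [← ha, ← hb] at hab
        have hb0 : b ≠ 0 := h0' k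
        have hω : (a / b) ^ d = 1 := by
          rw [div_pow, hab, div_self (pow_ne_zero _ hb0)]
        have hω1 : a / b ≠ 1 := by
          intro h
          rw [div_eq_one_iff_eq hb0] at h
          rw [h, sub_self, map_zero] at hk1
          exact hk1 rfl
        have h5 := LocTailTwAux.val_root_sub v hd hvd hω (one_pow d) hω1
        apply hone
        have h6 : a - b = (a / b - 1) * b := by
          rw [sub_mul, div_mul_cancel₀ _ hb0, one_mul]
        rw [h6, map_mul, h5, h1', one_mul]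
  have hinv : ∀ k : ℕ, v ((nw d lam)^[k] y - (nw d lam)^[k] y') ≠ 0 ∧
      v (y - y') = g ^ k * v ((nw d lam)^[k] y - (nw d lam)^[k] y') := by
    intro k
    induction k with
    | zero =>
      refine ⟨?_, by simp⟩
      exact (Valuation.ne_zero_iff v).2 (sub_ne_zero.2 hne)
    | succ k ih =>
      have h1 := key k ih
      obtain ⟨ih1, ih2⟩ := ih
      refine ⟨?_, ?_⟩
      · intro h
        rw [h, mul_zero] at h1
        exact ih1 h1
      · rw [ih2, h1, pow_succ, mul_assoc]
  have hmono : StrictMono fun k : ℕ => v ((nw d lam)^[k] y - (nw d lam)^[k] y') := by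
    apply strictMono_nat_of_lt_succ
    intro k
    have h1 := key k (hinv k)
    have h2 := (hinv (k + 1)).1
    calc v ((nw d lam)^[k] y - (nw d lam)^[k] y') =
        g * v ((nw d lam)^[k + 1] y - (nw d lam)^[k + 1] y') := h1
      _ < 1 * v ((nw d lam)^[k + 1] y - (nw d lam)^[k + 1] y') :=
        mul_lt_mul_of_pos_right hg1 (zero_lt_iff.2 h2)
      _ = _ := one_mul _
  have hinj : Function.Injective fun k : ℕ => ((nw d lam)^[k] y, (nw d lam)^[k] y') := by
    intro i j hij
    apply hmono.injective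
    have h1 := (Prod.mk.inj hij).1
    have h2 := (Prod.mk.inj hij).2
    simp only [h1, h2]
  refine Set.infinite_range_of_injective hinj (Set.Finite.subset (hy.prod hy') ?_)
  rintro _ ⟨k, rfl⟩
  exact ⟨⟨k, rfl⟩, ⟨k, rfl⟩⟩

end BadAux

open BadAux

theorem bad_two {K : Type*} [Field K] (v : Valuation K ℤᵐ⁰) {d : ℕ} (hd : 2 ≤ d)
    (hvd : v (d : K) = 1) {lam : K} (hlam : lam ≠ 0) (hl : v lam < 1) {x : K}
    (hx : Two d lam x) : v x ^ d = v lam := by
  rcases dicho v hd hvd hlam hl hx.ne0 hx.pre with h | ⟨-, -, h⟩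
  · exact h
  · exact absurd h hx.two

theorem bad_ratio {K : Type*} [Field K] (v : Valuation K ℤᵐ⁰) {d l : ℕ} (hd : 2 ≤ d)
    (hcop : Nat.Coprime l d) (hvd : v (d : K) = 1) {ζ0 : K} (hζ0 : IsPrimitiveRoot ζ0 d) {lam : K}
    (hlam : lam ≠ 0) (hl : v lam < 1) (hvl : ∃ γ : ℤᵐ⁰, v lam = γ ^ l) {w x : K}
    (hw : Two d lam w) (hx : Two d lam x ∨ Fixd d lam x) (hne : w ^ d ≠ x ^ d) {ζ ζ' : K}
    (hζ : ζ ^ d = 1) (hζ' : ζ' ^ d = 1) :
    ∃ γ : ℤᵐ⁰, v ((w - ζ * x) / (w - ζ' * x)) = γ ^ l := by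
  have hd0 : d ≠ 0 := by omega
  have hx0 : x ≠ 0 := by
    rcases hx with h | h
    · exact h.ne0
    · exact h.ne
  have hw0 : w ≠ 0 := hw.ne0
  have hpx : PrePt (nw d lam) x := by
    rcases hx with h | h
    · exact h.pre
    · have h1 : ∀ k : ℕ, (nw d lam)^[k] x = x := fun k => Function.iterate_fixed h.fix k
      unfold PrePt
      refine Set.Finite.subset (Set.finite_singleton x) ?_
      rintro _ ⟨k, rfl⟩
      exact h1 k
  have hnx : ∀ k : ℕ, (nw d lam)^[k] x ≠ 0 := by
    rcases hx with h | h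
    · exact h.ne
    · intro k
      rw [Function.iterate_fixed h.fix k]
      exact h.ne
  have hgl := bad_two v hd hvd hlam hl hw
  obtain ⟨g, hg⟩ : ∃ g, v w = g := ⟨_, rfl⟩
  rw [hg] at hgl
  have hg0 : g ≠ 0 := by
    rw [← hg]
    exact (Valuation.ne_zero_iff v).2 hw0
  have hg1 : g < 1 := by
    by_contra h
    rw [not_lt] at h
    have h1 : 1 ≤ g ^ d := one_le_pow₀ h
    rw [hgl] at h1
    exact absurd hl (not_lt.2 h1)
  rcases dicho v hd hvd hlam hl hx0 hpx with h | ⟨h, -, -⟩
  · have hxg : v x = g := (pow_left_inj₀ zero_le zero_le hd0).1 (h.trans hgl.symm)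
    have hform : ∀ ζ : K, ζ ^ d = 1 → ∃ e : ℕ, v (w - ζ * x) = g ^ (e + 1) := by
      intro ζ hζ
      rcases step (lam := lam) v hd hvd hg0 hgl hg hxg hζ with h1 | ⟨-, h1⟩
      · exact ⟨0, by rw [h1, zero_add, pow_one]⟩
      · have h2 : nw d lam w ≠ nw d lam x := fun h3 => hne ((nw_eq_iff hlam hw0 hx0).1 h3)
        obtain ⟨m, hm⟩ := claim v hd hvd hlam hl hgl (pre_image hw.pre) (pre_image hpx)
          (fun k => by
            have := hw.ne (k + 1)
            rwa [Function.iterate_succ_apply] at this)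
          (fun k => by
            have := hnx (k + 1)
            rwa [Function.iterate_succ_apply] at this) h2
        exact ⟨m, by rw [h1, hm, pow_succ']⟩
    obtain ⟨e, he⟩ := hform ζ hζ
    obtain ⟨e', he'⟩ := hform ζ' hζ'
    obtain ⟨γ, hγ⟩ := hvl
    have hl00 : l ≠ 0 := by
      rintro rfl
      rw [Nat.coprime_zero_left] at hcop
      omega
    have hγ0 : γ ≠ 0 := by
      rintro rfl
      rw [zero_pow hl00] at hγ
      exact (Valuation.ne_zero_iff v).2 hlam hγ
    obtain ⟨δ, hδ0, hδ⟩ := LocPerTwAux.pow_root hcop hg0 hγ0 (hgl.trans hγ)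
    refine ⟨δ ^ (e + 1) / δ ^ (e' + 1), ?_⟩
    rw [map_div₀, he, he', hδ, div_pow, ← pow_mul, ← pow_mul, ← pow_mul, ← pow_mul,
      mul_comm l, mul_comm l]
  · have hone : ∀ ζ : K, ζ ^ d = 1 → v (w - ζ * x) = 1 := by
      intro ζ hζ
      have h1 : v (ζ * x) = 1 := by
        rw [map_mul, LocTailTwAux.val_root v hd hζ, one_mul, h]
      rw [Valuation.map_sub_eq_of_lt_right v (by rw [h1, hg]; exact hg1), h1]
    refine ⟨1, ?_⟩
    rw [map_div₀, hone ζ hζ, hone ζ' hζ', div_one, one_pow]

end UBN
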