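import Pool.Agent.UBC.Defs2
import Pool.Agent.UBC.DynAux

/-!
# The family `z ↦ lam / z ^ d + 1`: definitions
-/

set_option autoImplicit false

namespace UBN

open UBC

/-- the map `z ↦ lam / z ^ d + 1` (with value `1` at `0`: `0 → ∞ → 1`) -/
def nw {K : Type*} [Field K] (d : ℕ) (lam : K) : K → K := fun z => lam / z ^ d + 1

/-- `x` is preperiodic, `0` is not in its orbit, and its image is not fixed -/
structure Two {K : Type*} [Field K] (d : ℕ) (lam x : K) : Prop where
  pre : PrePt (nw d lam) x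
  ne : ∀ k : ℕ, (nw d lam)^[k] x ≠ 0
  two : nw d lam (nw d lam x) ≠ nw d lam x

/-- `x` is preperiodic, `0` is not in its orbit, and its second image is not fixed -/
structure Three {K : Type*} [Field K] (d : ℕ) (lam x : K) : Prop where
  pre : PrePt (nw d lam) x
  ne : ∀ k : ℕ, (nw d lam)^[k] x ≠ 0
  three : nw d lam (nw d lam (nw d lam x)) ≠ nw d lam (nw d lam x)

/-- `x ≠ 0` is a fixed point -/
structure Fixd {K : Type*} [Field K] (d : ℕ) (lam x : K) : Prop where
  ne : x ≠ 0
  fix : nw d lam x = x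

variable {K : Type*} [Field K] {d : ℕ} {lam x : K}

theorem Three.toTwo (h : Three d lam x) : Two d lam x :=
  ⟨h.pre, h.ne, fun h1 => h.three (congrArg (nw d lam) h1)⟩

omit [Field K] in
theorem pre_image {g : K → K} (h : PrePt g x) : PrePt g (g x) := by
  refine Set.Finite.subset h ?_
  rintro _ ⟨k, rfl⟩
  exact ⟨k + 1, by simp [Function.iterate_succ_apply]⟩

theorem Three.image (h : Three d lam x) : Two d lam (nw d lam x) :=
  ⟨pre_image h.pre, fun k => by
    have := h.ne (k + 1)
    rwa [Function.iterate_succ_apply] at this, h.three⟩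

theorem Two.ne0 (h : Two d lam x) : x ≠ 0 := h.ne 0

theorem Three.ne0 (h : Three d lam x) : x ≠ 0 := h.ne 0

/-- the difference of two images -/
theorem nw_sub {w : K} (hw : w ≠ 0) (hx : x ≠ 0) :
    nw d lam w - nw d lam x = lam * (x ^ d - w ^ d) / (w ^ d * x ^ d) := by
  have h1 : w ^ d ≠ 0 := pow_ne_zero _ hw
  have h2 : x ^ d ≠ 0 := pow_ne_zero _ hx
  unfold nw
  field_simp
  ring

theorem nw_eq_iff (hlam : lam ≠ 0) {w : K} (hw : w ≠ 0) (hx : x ≠ 0) :
    nw d lam w = nw d lam x ↔ w ^ d = x ^ d := by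
  have h1 : w ^ d ≠ 0 := pow_ne_zero _ hw
  have h2 : x ^ d ≠ 0 := pow_ne_zero _ hx
  rw [← sub_eq_zero, nw_sub hw hx, div_eq_zero_iff, mul_eq_zero, sub_eq_zero]
  constructor
  · rintro ((h | h) | h)
    · exact absurd h hlam
    · exact h.symm
    · exact absurd h (mul_ne_zero h1 h2)
  · intro h
    exact Or.inl (Or.inr h.symm)

/-! ### maps of fields -/

theorem nw_map {L : Type*} [Field L] (φ : K →+* L) (d : ℕ) (lam : K) :
    Function.Semiconj φ (nw d lam) (nw d (φ lam)) := fun z => by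
  simp [nw]

theorem iter_map {L : Type*} [Field L] (φ : K →+* L) (d : ℕ) (lam x : K) (k : ℕ) :
    (nw d (φ lam))^[k] (φ x) = φ ((nw d lam)^[k] x) :=
  (((nw_map φ d lam).iterate_right k) x).symm

theorem Two.map {L : Type*} [Field L] (φ : K →+* L) (h : Two d lam x) : Two d (φ lam) (φ x) := by
  refine ⟨h.pre.semiconj (nw_map φ d lam), fun k => ?_, fun h1 => h.two ?_⟩
  · rw [iter_map, Ne, map_eq_zero]
    exact h.ne k
  · rw [← nw_map φ d lam x, ← nw_map φ d lam] at h1
    exact φ.injective h1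

theorem Three.map {L : Type*} [Field L] (φ : K →+* L) (h : Three d lam x) :
    Three d (φ lam) (φ x) := by
  refine ⟨h.pre.semiconj (nw_map φ d lam), fun k => ?_, fun h1 => h.three ?_⟩
  · rw [iter_map, Ne, map_eq_zero]
    exact h.ne k
  · rw [← nw_map φ d lam x, ← nw_map φ d lam, ← nw_map φ d lam] at h1
    exact φ.injective h1

theorem Fixd.map {L : Type*} [Field L] (φ : K →+* L) (h : Fixd d lam x) :
    Fixd d (φ lam) (φ x) := by
  refine ⟨by rw [Ne, map_eq_zero]; exact h.ne, ?_⟩
  rw [← nw_map φ d lam x, h.fix]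

end UBN
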