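import Pool.Agent.UBN.Defs
import Pool.Agent.UBC.LocTailTw

/-!
# Local analysis at the places with `1 ≤ v lam`
-/

set_option autoImplicit false
set_option linter.unusedSectionVars false

namespace UBN

open UBC WithZero Polynomial

namespace GoodAux

variable {K : Type*} [Field K] (v : Valuation K ℤᵐ⁰) {d : ℕ} {lam : K}

/-- the power `d + 1` of the size of a point -/
noncomputable def sz (d : ℕ) (lam x : K) : ℤᵐ⁰ := max (v lam) (v x ^ (d + 1))

/-- the power `d + 1` of the chordal distance -/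
noncomputable def Dl (d : ℕ) (lam a b : K) : ℤᵐ⁰ :=
  v lam * v (a - b) ^ (d + 1) * (sz v d lam a * sz v d lam b)⁻¹

lemma lam_pos (hl : 1 ≤ v lam) : v lam ≠ 0 := (zero_lt_one.trans_le hl).ne'

lemma sz_ne (hl : 1 ≤ v lam) (x : K) : sz v d lam x ≠ 0 :=
  (zero_lt_one.trans_le (hl.trans (le_max_left _ _))).ne'

lemma sz_root {ζ : K} (hζ : v ζ = 1) (x : K) : sz v d lam (ζ * x) = sz v d lam x := by
  unfold sz
  rw [map_mul, hζ, one_mul]

lemma pow_max (a b : ℤᵐ⁰) (n : ℕ) : max a b ^ n = max (a ^ n) (b ^ n) := by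
  rcases le_total a b with h | h
  · rw [max_eq_right h, max_eq_right (pow_le_pow_left₀ zero_le h n)]
  · rw [max_eq_left h, max_eq_left (pow_le_pow_left₀ zero_le h n)]

lemma mul_max (a b c : ℤᵐ⁰) : a * max b c = max (a * b) (a * c) := by
  rcases le_total b c with h | h
  · rw [max_eq_right h, max_eq_right (mul_le_mul_right h a)]
  · rw [max_eq_left h, max_eq_left (mul_le_mul_right h a)]

lemma Dl_le (hl : 1 ≤ v lam) (a b : K) : Dl v d lam a b ≤ 1 := by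
  unfold Dl
  have h0 : sz v d lam a * sz v d lam b ≠ 0 := mul_ne_zero (sz_ne v hl a) (sz_ne v hl b)
  have h1 : v (a - b) ^ (d + 1) ≤ max (v a ^ (d + 1)) (v b ^ (d + 1)) := by
    rw [← pow_max]
    exact pow_le_pow_left₀ zero_le (v.map_sub _ _) _
  have h2 : v lam * v (a - b) ^ (d + 1) ≤ sz v d lam a * sz v d lam b := by
    refine (mul_le_mul_right h1 _).trans ?_
    rw [mul_max]
    refine max_le ?_ ?_
    · rw [mul_comm]
      exact mul_le_mul' (le_max_right _ _) (le_max_left _ _)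
    · exact mul_le_mul' (le_max_left _ _) (le_max_right _ _)
  calc v lam * v (a - b) ^ (d + 1) * (sz v d lam a * sz v d lam b)⁻¹
      ≤ (sz v d lam a * sz v d lam b) * (sz v d lam a * sz v d lam b)⁻¹ := mul_le_mul_left h2 _
    _ = 1 := mul_inv_cancel₀ h0

/-- G1 -/
lemma sz_nw (hl : 1 ≤ v lam) {x : K} (hx : x ≠ 0) :
    sz v d lam (nw d lam x) * v x ^ ((d + 1) * d) = v lam * sz v d lam x ^ d := by
  have hvx : v x ≠ 0 := (Valuation.ne_zero_iff v).2 hx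
  have hxd : v x ^ ((d + 1) * d) ≠ 0 := pow_ne_zero _ hvx
  obtain ⟨A, hA⟩ : ∃ A, A = v (lam / x ^ d) := ⟨_, rfl⟩
  have hAx : A ^ (d + 1) * v x ^ ((d + 1) * d) = v lam ^ (d + 1) := by
    rw [hA, map_div₀, map_pow, div_pow, ← pow_mul, mul_comm d (d + 1), div_mul_cancel₀ _ hxd]
  -- the size of the image
  have h1 : sz v d lam (nw d lam x) = max (v lam) (A ^ (d + 1)) := by
    unfold sz nw
    rcases le_or_gt A 1 with h | h
    · have h2 : v (lam / x ^ d + 1) ≤ 1 := by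
        refine (v.map_add _ _).trans (max_le (hA ▸ h) ?_)
        rw [map_one]
      rw [max_eq_left ((pow_le_one₀ zero_le h2).trans hl),
        max_eq_left ((pow_le_one₀ zero_le h).trans hl)]
    · have h2 : v (lam / x ^ d + 1) = A := by
        rw [Valuation.map_add_eq_of_lt_left, hA]
        rw [map_one, ← hA]
        exact h
      rw [h2]
  rw [h1, mul_comm, mul_max, mul_comm _ (A ^ (d + 1)), hAx, mul_comm _ (v lam), pow_succ' (v lam),
    ← mul_max]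
  unfold sz
  rw [pow_max, ← pow_mul, max_comm]

/-- the value of a difference of images -/
lemma v_sub {ζ0 : K} (hd : 2 ≤ d) (hζ0 : IsPrimitiveRoot ζ0 d) {x y : K} (hx : x ≠ 0)
    (hy : y ≠ 0) : v (nw d lam x - nw d lam y) * (v x ^ d * v y ^ d) =
      v lam * ∏ ζ ∈ nthRootsFinset d (1 : K), v (x - ζ * y) := by
  have hvx : v x ^ d ≠ 0 := pow_ne_zero _ ((Valuation.ne_zero_iff v).2 hx)
  have hvy : v y ^ d ≠ 0 := pow_ne_zero _ ((Valuation.ne_zero_iff v).2 hy)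
  rw [nw_sub hx hy, map_div₀, map_mul, map_mul, map_pow, map_pow,
    div_mul_cancel₀ _ (mul_ne_zero hvx hvy), Valuation.map_sub_swap,
    hζ0.pow_sub_pow_eq_prod_sub_mul x y (by omega), map_prod]

lemma alg {G : Type*} [CommGroupWithZero G] (L W Q X Y a b A B : G) (d : ℕ)
    (hX : X ^ ((d + 1) * d) ≠ 0) (hY : Y ^ ((d + 1) * d) ≠ 0)
    (e3 : W * (X ^ d * Y ^ d) = L * Q) (gx : A * X ^ ((d + 1) * d) = L * a ^ d)
    (gy : B * Y ^ ((d + 1) * d) = L * b ^ d) :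
    L * W ^ (d + 1) * (a * b) ^ d = L ^ d * Q ^ (d + 1) * (A * B) := by
  apply mul_right_cancel₀ (mul_ne_zero hX hY)
  have h1 : (W * (X ^ d * Y ^ d)) ^ (d + 1) =
      W ^ (d + 1) * (X ^ ((d + 1) * d) * Y ^ ((d + 1) * d)) := by
    rw [mul_pow, mul_pow, ← pow_mul, ← pow_mul, mul_comm d (d + 1)]
  have h2 : (L * Q) ^ (d + 1) = L ^ d * L * Q ^ (d + 1) := by rw [mul_pow, pow_succ L]
  have h3 : (a * b) ^ d = a ^ d * b ^ d := mul_pow a b d
  calc L * W ^ (d + 1) * (a * b) ^ d * (X ^ ((d + 1) * d) * Y ^ ((d + 1) * d))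
      = L * (W ^ (d + 1) * (X ^ ((d + 1) * d) * Y ^ ((d + 1) * d))) * (a * b) ^ d := by ac_rfl
    _ = L * (L ^ d * L * Q ^ (d + 1)) * (a ^ d * b ^ d) := by rw [← h1, e3, h2, h3]
    _ = L ^ d * Q ^ (d + 1) * ((L * a ^ d) * (L * b ^ d)) := by ac_rfl
    _ = L ^ d * Q ^ (d + 1) * ((A * X ^ ((d + 1) * d)) * (B * Y ^ ((d + 1) * d))) := by
        rw [gx, gy]
    _ = _ := by ac_rfl

/-- G2 -/
lemma Dl_nw (hd : 2 ≤ d) {ζ0 : K} (hζ0 : IsPrimitiveRoot ζ0 d) (hl : 1 ≤ v lam) {x y : K}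
    (hx : x ≠ 0) (hy : y ≠ 0) : Dl v d lam (nw d lam x) (nw d lam y) =
      ∏ ζ ∈ nthRootsFinset d (1 : K), Dl v d lam x (ζ * y) := by
  have hvx : v x ^ ((d + 1) * d) ≠ 0 := pow_ne_zero _ ((Valuation.ne_zero_iff v).2 hx)
  have hvy : v y ^ ((d + 1) * d) ≠ 0 := pow_ne_zero _ ((Valuation.ne_zero_iff v).2 hy)
  have hL : v lam ≠ 0 := lam_pos v hl
  have hsx := sz_ne (d := d) v hl x
  have hsy := sz_ne (d := d) v hl y
  have e1 : ∏ ζ ∈ nthRootsFinset d (1 : K), Dl v d lam x (ζ * y) =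
      v lam ^ d * (∏ ζ ∈ nthRootsFinset d (1 : K), v (x - ζ * y)) ^ (d + 1) *
        ((sz v d lam x * sz v d lam y)⁻¹) ^ d := by
    have e2 : ∀ ζ ∈ nthRootsFinset d (1 : K), Dl v d lam x (ζ * y) =
        v lam * v (x - ζ * y) ^ (d + 1) * (sz v d lam x * sz v d lam y)⁻¹ := by
      intro ζ hζ
      unfold Dl
      rw [sz_root v (LocTailTwAux.val_root v hd ((LocTailTwAux.mem_roots hd).1 hζ))]
    rw [Finset.prod_congr rfl e2, Finset.prod_mul_distrib, Finset.prod_mul_distrib,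
      Finset.prod_const, Finset.prod_const, hζ0.card_nthRootsFinset, Finset.prod_pow]
  obtain ⟨Q, hQ⟩ : ∃ Q, Q = ∏ ζ ∈ nthRootsFinset d (1 : K), v (x - ζ * y) := ⟨_, rfl⟩
  rw [e1, ← hQ]
  have e3 := v_sub v (lam := lam) hd hζ0 hx hy
  rw [← hQ] at e3
  have gx := sz_nw (d := d) v hl hx
  have gy := sz_nw (d := d) v hl hy
  unfold Dl
  have hFx := sz_ne (d := d) v hl (nw d lam x)
  have hFy := sz_ne (d := d) v hl (nw d lam y)
  obtain ⟨W, hW⟩ : ∃ W, W = v (nw d lam x - nw d lam y) := ⟨_, rfl⟩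
  rw [← hW] at e3 ⊢
  rw [← div_eq_mul_inv, inv_pow, ← div_eq_mul_inv, div_eq_div_iff (mul_ne_zero hFx hFy)
    (pow_ne_zero _ (mul_ne_zero hsx hsy))]
  exact alg (v lam) W Q (v x) (v y) _ _ _ _ d hvx hvy e3 gx gy

lemma Dl_le_of (hd : 2 ≤ d) {ζ0 : K} (hζ0 : IsPrimitiveRoot ζ0 d) (hl : 1 ≤ v lam) {x y : K}
    (hx : x ≠ 0) (hy : y ≠ 0) {ζ : K} (hζ : ζ ^ d = 1) :
    Dl v d lam (nw d lam x) (nw d lam y) ≤ Dl v d lam x (ζ * y) := by
  classical
  rw [Dl_nw v hd hζ0 hl hx hy,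
    ← Finset.mul_prod_erase _ _ ((LocTailTwAux.mem_roots hd).2 hζ)]
  calc Dl v d lam x (ζ * y) * ∏ η ∈ (nthRootsFinset d (1 : K)).erase ζ, Dl v d lam x (η * y)
      ≤ Dl v d lam x (ζ * y) * 1 :=
        mul_le_mul_right (Finset.prod_le_one' fun η _ => Dl_le v hl _ _) _
    _ = _ := mul_one _

lemma Dl_iter_le (hd : 2 ≤ d) {ζ0 : K} (hζ0 : IsPrimitiveRoot ζ0 d) (hl : 1 ≤ v lam) (k : ℕ) :
    ∀ x y : K, (∀ k : ℕ, (nw d lam)^[k] x ≠ 0) → (∀ k : ℕ, (nw d lam)^[k] y ≠ 0) →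
      Dl v d lam ((nw d lam)^[k] x) ((nw d lam)^[k] y) ≤ Dl v d lam x y := by
  induction k with
  | zero => intro x y _ _; exact le_rfl
  | succ k ih =>
    intro x y hx hy
    rw [Function.iterate_succ_apply, Function.iterate_succ_apply]
    refine (ih _ _ (fun j => ?_) (fun j => ?_)).trans ?_
    · have := hx (j + 1)
      rwa [Function.iterate_succ_apply] at this
    · have := hy (j + 1)
      rwa [Function.iterate_succ_apply] at this
    · have h := Dl_le_of v hd hζ0 hl (hx 0) (hy 0) (one_pow d)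
      rwa [one_mul] at h

/-- if the distance of some later images is `1` then all the distances are `1` -/
lemma all_one (hd : 2 ≤ d) {ζ0 : K} (hζ0 : IsPrimitiveRoot ζ0 d) (hl : 1 ≤ v lam) {x y : K}
    (hx : ∀ k : ℕ, (nw d lam)^[k] x ≠ 0) (hy : ∀ k : ℕ, (nw d lam)^[k] y ≠ 0) {k : ℕ}
    (hk : 1 ≤ k) (h : Dl v d lam ((nw d lam)^[k] x) ((nw d lam)^[k] y) = 1) {ζ : K}
    (hζ : ζ ^ d = 1) : Dl v d lam x (ζ * y) = 1 := by
  obtain ⟨k, rfl⟩ : ∃ m, k = m + 1 := ⟨k - 1, by omega⟩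
  refine le_antisymm (Dl_le v hl _ _) ?_
  rw [Function.iterate_succ_apply, Function.iterate_succ_apply] at h
  rw [← h]
  refine (Dl_iter_le v hd hζ0 hl k _ _ (fun j => ?_) (fun j => ?_)).trans
    (Dl_le_of v hd hζ0 hl (hx 0) (hy 0) hζ)
  · have := hx (j + 1)
    rwa [Function.iterate_succ_apply] at this
  · have := hy (j + 1)
    rwa [Function.iterate_succ_apply] at this

lemma per_one (hd : 2 ≤ d) {ζ0 : K} (hζ0 : IsPrimitiveRoot ζ0 d) (hl : 1 ≤ v lam) {x y : K}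
    (hx : PerPt (nw d lam) x) (hy : PerPt (nw d lam) y) (hx0 : ∀ k : ℕ, (nw d lam)^[k] x ≠ 0)
    (hy0 : ∀ k : ℕ, (nw d lam)^[k] y ≠ 0) (hxy : x ≠ y) {ζ : K} (hζ : ζ ^ d = 1) (hζ1 : ζ ≠ 1) :
    Dl v d lam x (ζ * y) = 1 := by
  classical
  obtain ⟨n, hn, h1, h2⟩ := LocTailTwAux.common hx hy
  obtain ⟨n, rfl⟩ : ∃ m, n = m + 1 := ⟨n - 1, by omega⟩
  rw [Function.iterate_succ_apply] at h1 h2
  have h3 : Dl v d lam x y ≤ Dl v d lam (nw d lam x) (nw d lam y) := by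
    calc Dl v d lam x y = Dl v d lam ((nw d lam)^[n] (nw d lam x))
          ((nw d lam)^[n] (nw d lam y)) := by rw [h1, h2]
      _ ≤ _ := Dl_iter_le v hd hζ0 hl n _ _ (fun j => by
          have := hx0 (j + 1)
          rwa [Function.iterate_succ_apply] at this) (fun j => by
          have := hy0 (j + 1)
          rwa [Function.iterate_succ_apply] at this)
  have hD : Dl v d lam x y ≠ 0 := by
    unfold Dl
    exact mul_ne_zero (mul_ne_zero (lam_pos v hl) (pow_ne_zero _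
      ((Valuation.ne_zero_iff v).2 (sub_ne_zero.2 hxy)))) (inv_ne_zero
      (mul_ne_zero (sz_ne v hl _) (sz_ne v hl _)))
  have hx00 : x ≠ 0 := hx0 0
  have hy00 : y ≠ 0 := hy0 0
  rw [Dl_nw v hd hζ0 hl hx00 hy00,
    ← Finset.mul_prod_erase _ _ ((LocTailTwAux.mem_roots hd).2 (one_pow d)), one_mul] at h3
  have h4 : ∏ η ∈ (nthRootsFinset d (1 : K)).erase 1, Dl v d lam x (η * y) = 1 := by
    refine le_antisymm (Finset.prod_le_one' fun η _ => Dl_le v hl _ _) ?_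
    rw [← mul_le_mul_iff_right₀ (zero_lt_iff.2 hD), mul_one]
    exact h3
  exact LocTailTwAux.prod_all (fun η _ => Dl_le v hl _ _) h4
    (Finset.mem_erase.2 ⟨hζ1, (LocTailTwAux.mem_roots hd).2 hζ⟩)

lemma eq_of_one (hd : 2 ≤ d) (hl : 1 ≤ v lam) {x y ζ : K} (hζ : ζ ^ d = 1)
    (h : Dl v d lam x (ζ * y) = 1) :
    v lam * v (x - ζ * y) ^ (d + 1) = sz v d lam x * sz v d lam y := by
  unfold Dl at h
  rw [sz_root v (LocTailTwAux.val_root v hd hζ)] at h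
  have h0 : sz v d lam x * sz v d lam y ≠ 0 := mul_ne_zero (sz_ne v hl _) (sz_ne v hl _)
  rw [← div_eq_mul_inv, div_eq_one_iff_eq h0] at h
  exact h

lemma eq_of_ones (hd : 2 ≤ d) (hl : 1 ≤ v lam) {x y ζ ζ' : K} (hζ : ζ ^ d = 1)
    (hζ' : ζ' ^ d = 1) (h : Dl v d lam x (ζ * y) = 1) (h' : Dl v d lam x (ζ' * y) = 1) :
    v (x - ζ * y) = v (x - ζ' * y) := by
  have h1 := (eq_of_one v hd hl hζ h).trans (eq_of_one v hd hl hζ' h').symm
  exact (pow_left_inj₀ zero_le zero_le (by omega)).1 (mul_left_cancel₀ (lam_pos v hl) h1)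

/-- moving a root of unity to the other side -/
lemma Dl_root (hd : 2 ≤ d) {ω : K} (hω : ω ^ d = 1) (a b : K) :
    Dl v d lam (ω * a) b = Dl v d lam a (ω⁻¹ * b) := by
  have hω0 : ω ≠ 0 := by
    rintro rfl
    rw [zero_pow (by omega)] at hω
    exact zero_ne_one hω
  have h1 : v ω = 1 := LocTailTwAux.val_root v hd hω
  have h2 : v ω⁻¹ = 1 := by rw [map_inv₀, h1, inv_one]
  unfold Dl
  rw [sz_root v h1, sz_root v h2]
  have h3 : ω * a - b = ω * (a - ω⁻¹ * b) := by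
    rw [mul_sub, ← mul_assoc, mul_inv_cancel₀ hω0, one_mul]
  rw [h3, map_mul, h1, one_mul]

end GoodAux

open GoodAux

theorem good_per {K : Type*} [Field K] (v : Valuation K ℤᵐ⁰) {d : ℕ} (hd : 2 ≤ d) {ζ0 : K}
    (hζ0 : IsPrimitiveRoot ζ0 d) {lam : K} (hl : 1 ≤ v lam) {x y : K}
    (hx : PerPt (nw d lam) x) (hy : PerPt (nw d lam) y) (hx0 : ∀ k : ℕ, (nw d lam)^[k] x ≠ 0)
    (hy0 : ∀ k : ℕ, (nw d lam)^[k] y ≠ 0) (hxy : x ≠ y) {ζ ζ' : K} (hζ : ζ ^ d = 1) (hζ1 : ζ ≠ 1)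
    (hζ' : ζ' ^ d = 1) (hζ'1 : ζ' ≠ 1) : v (x - ζ * y) = v (x - ζ' * y) :=
  eq_of_ones v hd hl hζ hζ' (per_one v hd hζ0 hl hx hy hx0 hy0 hxy hζ hζ1)
    (per_one v hd hζ0 hl hx hy hx0 hy0 hxy hζ' hζ'1)

theorem good_tail {K : Type*} [Field K] (v : Valuation K ℤᵐ⁰) {d : ℕ} (hd : 2 ≤ d) {ζ0 : K}
    (hζ0 : IsPrimitiveRoot ζ0 d) {lam : K} (hl : 1 ≤ v lam) {w x : K}
    (hw : PrePt (nw d lam) w) (hw0 : ∀ k : ℕ, (nw d lam)^[k] w ≠ 0)
    (hw1 : ¬ PerPt (nw d lam) (nw d lam w)) (hx : PerPt (nw d lam) x)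
    (hx0 : ∀ k : ℕ, (nw d lam)^[k] x ≠ 0)
    (hnever : ∀ k : ℕ, (nw d lam)^[k] w ≠ (nw d lam)^[k] x) {ζ ζ' : K} (hζ : ζ ^ d = 1)
    (hζ' : ζ' ^ d = 1) : v (w - ζ * x) = v (w - ζ' * x) := by
  classical
  have hlam : lam ≠ 0 := by
    intro h
    rw [h, map_zero] at hl
    exact absurd hl (by simp)
  have hex := hw.exists_per
  obtain ⟨M, hM⟩ : ∃ M, M = Nat.find hex := ⟨_, rfl⟩
  have hMp : PerPt (nw d lam) ((nw d lam)^[M] w) := hM ▸ Nat.find_spec hex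
  have hMm : ∀ j, j < M → ¬ PerPt (nw d lam) ((nw d lam)^[j] w) := fun j hj =>
    Nat.find_min hex (hM ▸ hj)
  have hM2 : 2 ≤ M := by
    by_contra hlt
    push Not at hlt
    interval_cases M
    · exact hw1 hMp.image
    · exact hw1 hMp
  obtain ⟨n, rfl⟩ : ∃ n, M = n + 1 := ⟨M - 1, by omega⟩
  obtain ⟨y, hy, hyM⟩ := LocTailTwAux.per_preimage hMp
  have hy0 : ∀ k : ℕ, (nw d lam)^[k] y ≠ 0 := by
    intro k hk
    obtain ⟨p, hp, hpy⟩ := hy
    have h1 : (nw d lam)^[k] ((nw d lam)^[p] y) ≠ 0 := by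
      obtain ⟨q, rfl⟩ : ∃ q, p = q + 1 := ⟨p - 1, by omega⟩
      rw [Function.iterate_succ_apply, hyM, ← Function.iterate_add_apply,
        ← Function.iterate_add_apply]
      exact hw0 _
    rw [hpy] at h1
    exact h1 hk
  have hyne : y ≠ 0 := hy0 0
  obtain ⟨z, hz⟩ : ∃ z, z = (nw d lam)^[n] w := ⟨_, rfl⟩
  have hzy : nw d lam z = nw d lam y := by
    rw [hyM, Function.iterate_succ_apply', hz]
  have hzy' : z ≠ y := by
    intro h
    apply hMm n (by omega)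
    rw [← hz, h]
    exact hy
  have hz0 : z ≠ 0 := hz ▸ hw0 n
  have hpow : z ^ d = y ^ d := (nw_eq_iff hlam hz0 hyne).1 hzy
  obtain ⟨ω, hω⟩ : ∃ ω, ω = z / y := ⟨_, rfl⟩
  have hzω : z = ω * y := by rw [hω, div_mul_cancel₀ _ hyne]
  have hωd : ω ^ d = 1 := by
    rw [hω, div_pow, hpow, div_self (pow_ne_zero _ hyne)]
  have hω1 : ω ≠ 1 := by
    rintro h
    rw [h, one_mul] at hzω
    exact hzy' hzω
  have hωi : (ω⁻¹) ^ d = 1 := by rw [inv_pow, hωd, inv_one]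
  have hωi1 : ω⁻¹ ≠ 1 := by
    intro h
    exact hω1 (inv_eq_one.1 h)
  have hyx : y ≠ (nw d lam)^[n] x := by
    intro h
    apply hnever (n + 1)
    rw [Function.iterate_succ_apply' _ _ x, ← h, hyM]
  have h1 : Dl v d lam y (ω⁻¹ * (nw d lam)^[n] x) = 1 := by
    refine per_one v hd hζ0 hl hy (hx.iter n) hy0 (fun k => ?_) hyx hωi hωi1
    rw [← Function.iterate_add_apply]
    exact hx0 _
  rw [← Dl_root v hd hωd, ← hzω, hz] at h1
  exact eq_of_ones v hd hl hζ hζ' (all_one v hd hζ0 hl hw0 hx0 (by omega) h1 hζ)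
    (all_one v hd hζ0 hl hw0 hx0 (by omega) h1 hζ')

theorem good_fixed {K : Type*} [Field K] (v : Valuation K ℤᵐ⁰) {d : ℕ} (hd : 2 ≤ d)
    (hvd : v (d : K) = 1) {ζ0 : K} (hζ0 : IsPrimitiveRoot ζ0 d) {lam : K} (hl : 1 ≤ v lam)
    {w u : K} (hw0 : ∀ k : ℕ, (nw d lam)^[k] w ≠ 0) (hu : Fixd d lam u) (hwu : nw d lam w ≠ u)
    (hm : ∃ m : ℕ, (nw d lam)^[m] w = u) {ζ ζ' : K} (hζ : ζ ^ d = 1) (hζ' : ζ' ^ d = 1) :
    v (w - ζ * u) = v (w - ζ' * u) := by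
  classical
  have hlam : lam ≠ 0 := by
    intro h
    rw [h, map_zero] at hl
    exact absurd hl (by simp)
  obtain ⟨M, hM⟩ : ∃ M, M = Nat.find hm := ⟨_, rfl⟩
  have hMp : (nw d lam)^[M] w = u := hM ▸ Nat.find_spec hm
  have hMm : ∀ j, j < M → (nw d lam)^[j] w ≠ u := fun j hj => Nat.find_min hm (hM ▸ hj)
  have hM2 : 2 ≤ M := by
    by_contra hlt
    push Not at hlt
    interval_cases M
    · apply hwu
      rw [Function.iterate_zero, id_eq] at hMp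
      rw [hMp, hu.fix]
    · exact hwu hMp
  obtain ⟨n, rfl⟩ : ∃ n, M = n + 1 := ⟨M - 1, by omega⟩
  have hui : ∀ k : ℕ, (nw d lam)^[k] u = u := fun k => Function.iterate_fixed hu.fix k
  have hu0 : ∀ k : ℕ, (nw d lam)^[k] u ≠ 0 := fun k => by
    rw [hui k]
    exact hu.ne
  obtain ⟨z, hz⟩ : ∃ z, z = (nw d lam)^[n] w := ⟨_, rfl⟩
  have hzu : nw d lam z = nw d lam u := by
    rw [hu.fix, hz, ← Function.iterate_succ_apply' (nw d lam)]
    exact hMp
  have hzu' : z ≠ u := hz ▸ hMm n (by omega)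
  have hz0 : z ≠ 0 := hz ▸ hw0 n
  have hpow : z ^ d = u ^ d := (nw_eq_iff hlam hz0 hu.ne).1 hzu
  obtain ⟨ω, hω⟩ : ∃ ω, ω = z / u := ⟨_, rfl⟩
  have hzω : z = ω * u := by rw [hω, div_mul_cancel₀ _ hu.ne]
  have hωd : ω ^ d = 1 := by
    rw [hω, div_pow, hpow, div_self (pow_ne_zero _ hu.ne)]
  have hω1 : ω ≠ 1 := by
    rintro h
    rw [h, one_mul] at hzω
    exact hzu' hzω
  -- the value of a fixed point
  have hvu : v u ^ (d + 1) = v lam := by
    have h1 : u ^ d * (u - 1) = lam := by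
      have h2 := hu.fix
      unfold nw at h2
      have h3 : u ^ d ≠ 0 := pow_ne_zero _ hu.ne
      field_simp at h2
      linear_combination -h2
    have h2 : v lam = v u ^ d * v (u - 1) := by rw [← h1, map_mul, map_pow]
    rcases lt_or_ge 1 (v u) with h3 | h3
    · have h4 : v (u - 1) = v u := by
        rw [Valuation.map_sub_eq_of_lt_left]
        rw [map_one]
        exact h3
      rw [h2, h4, pow_succ]
    · have h4 : v (u - 1) ≤ 1 := (v.map_sub _ _).trans (max_le h3 (by rw [map_one]))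
      have h5 : v lam = 1 := by
        refine le_antisymm ?_ hl
        rw [h2]
        exact mul_le_one' (pow_le_one₀ zero_le h3) h4
      have h6 : v u ^ d = 1 := by
        refine le_antisymm (pow_le_one₀ zero_le h3) ?_
        rw [← h5, h2]
        calc v u ^ d * v (u - 1) ≤ v u ^ d * 1 := mul_le_mul_right h4 _
          _ = v u ^ d := mul_one _
      have h7 : v u = 1 := (pow_eq_one_iff_of_nonneg zero_le (by omega)).1 h6
      rw [h7, one_pow, h5]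
  have hL : v lam ≠ 0 := lam_pos v hl
  have hsu : sz v d lam u = v lam := by
    unfold sz
    rw [hvu, max_self]
  have h1 : Dl v d lam ((nw d lam)^[n] w) ((nw d lam)^[n] u) = 1 := by
    rw [hui n, ← hz, hzω]
    unfold Dl
    rw [sz_root v (LocTailTwAux.val_root v hd hωd), hsu]
    have h2 : ω * u - u = (ω - 1) * u := by ring
    rw [h2, map_mul, LocTailTwAux.val_root_sub v hd hvd hωd (one_pow d) hω1, one_mul, hvu]
    exact mul_inv_cancel₀ (mul_ne_zero hL hL)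
  exact eq_of_ones v hd hl hζ hζ' (all_one v hd hζ0 hl hw0 hu0 (by omega) h1 hζ)
    (all_one v hd hζ0 hl hw0 hu0 (by omega) h1 hζ')

end UBN
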