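import Pool.Agent.UBN.Main
import Pool.Agent.UBN.Good
import Pool.Agent.UBN.Bad
import Pool.Agent.UBC.FinalTw
import Pool.Agent.UBC.DynAux
import Pool.Agent.UBC.LocGlob

/-!
# Uniform bound for preperiodic points of `lam / z ^ d + 1`
-/

set_option autoImplicit false

universe u

namespace UBN

open UBC Height NumberField IsDedekindDomain Polynomial

namespace FinA

variable {K : Type*} [Field K] {d : ℕ} {lam : K}

/-- a periodic point that is not fixed is in `Three` -/
theorem three_of_per {x : K} (hx : PerPt (nw d lam) x) (h0 : ∀ k : ℕ, (nw d lam)^[k] x ≠ 0)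
    (hf : nw d lam x ≠ x) : Three d lam x := by
  refine ⟨hx.prePt, h0, fun h => hf ?_⟩
  have h1 := (hx.image.image).inj' hx.image h
  exact hx.image.inj' hx h1

/-- a point whose second image is not periodic is in `Three` -/
theorem three_of_not_per {x : K} (hx : PrePt (nw d lam) x) (h0 : ∀ k : ℕ, (nw d lam)^[k] x ≠ 0)
    (hf : ¬ PerPt (nw d lam) (nw d lam (nw d lam x))) : Three d lam x :=
  ⟨hx, h0, fun h => hf ⟨1, one_pos, h⟩⟩

/-- at most `d + 1` fixed points -/
theorem card_fix [DecidableEq K] (P : Finset K)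
    (hP : ∀ x ∈ P, x ≠ 0 ∧ nw d lam x = x) : P.card ≤ d + 1 := by
  set p : K[X] := X ^ (d + 1) - (X ^ d + C lam) with hp
  have hdeg : (X ^ d + C lam : K[X]).degree ≤ (d : WithBot ℕ) := by
    refine (degree_add_le _ _).trans (max_le ?_ ?_)
    · rw [degree_X_pow]
    · exact degree_C_le.trans (by exact_mod_cast Nat.zero_le d)
  have hdeg' : (X ^ d + C lam : K[X]).degree < ((d + 1 : ℕ) : WithBot ℕ) :=
    lt_of_le_of_lt hdeg (by exact_mod_cast Nat.lt_succ_self d)
  have hpm : p.Monic := monic_X_pow_sub hdeg'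
  have hpd : p.natDegree = d + 1 := by
    rw [natDegree_eq_of_degree_eq_some]
    rw [hp, degree_sub_eq_left_of_degree_lt, degree_X_pow]
    rw [degree_X_pow]
    exact hdeg'
  have hsub : P ⊆ p.roots.toFinset := by
    intro x hx
    obtain ⟨hx0, hxf⟩ := hP x hx
    rw [Multiset.mem_toFinset, mem_roots hpm.ne_zero, IsRoot.def, hp]
    simp only [eval_sub, eval_add, eval_pow, eval_X, eval_C]
    unfold nw at hxf
    have h1 : x ^ d ≠ 0 := pow_ne_zero _ hx0
    field_simp at hxf
    linear_combination -hxf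
  calc P.card ≤ p.roots.toFinset.card := Finset.card_le_card hsub
    _ ≤ p.roots.card := Multiset.toFinset_card_le _
    _ ≤ p.natDegree := card_roots' p
    _ = d + 1 := hpd

/-- bounded fibres -/
theorem card_le_mul [DecidableEq K] (hd : 0 < d) (hlam : lam ≠ 0) (P : Finset K)
    (hP : ∀ x ∈ P, x ≠ 0) (B : ℕ) (hB : (P.image (nw d lam)).card ≤ B) : P.card ≤ d * B := by
  calc P.card ≤ d * (P.image (nw d lam)).card := by
        apply Finset.card_le_mul_card_image
        intro b _
        have h1 : P.filter (fun x => nw d lam x = b) ⊆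
            (Polynomial.nthRoots d (lam / (b - 1))).toFinset := by
          intro x hx
          rw [Finset.mem_filter] at hx
          have hx0 : x ^ d ≠ 0 := pow_ne_zero _ (hP x hx.1)
          rw [Multiset.mem_toFinset, Polynomial.mem_nthRoots hd, ← hx.2]
          unfold nw
          rw [add_sub_cancel_right, div_div_cancel₀ hlam]
        calc (P.filter (fun x => nw d lam x = b)).card
            ≤ (Polynomial.nthRoots d (lam / (b - 1))).toFinset.card :=
              Finset.card_le_card h1
          _ ≤ (Polynomial.nthRoots d (lam / (b - 1))).card := Multiset.toFinset_card_le _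
          _ ≤ d := Polynomial.card_nthRoots d _
    _ ≤ d * B := Nat.mul_le_mul_left d hB

/-- the ratio of two points in terms of the forms -/
theorem div_form {w x ζ ζ' : K} (hx : x ≠ 0) :
    (w / x - ζ) / (w / x - ζ') = (w - ζ * x) / (w - ζ' * x) := by
  have e1 : ∀ ζ : K, w / x - ζ = (w - ζ * x) / x := by
    intro ζ
    field_simp
  rw [e1, e1, div_div_div_cancel_right₀ hx]

theorem form_ne {w x ζ : K} (hne : w ^ d ≠ x ^ d) (hζ : ζ ^ d = 1) : w - ζ * x ≠ 0 := by
  intro hh
  apply hne
  rw [sub_eq_zero.1 hh, mul_pow, hζ, one_mul]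

end FinA

open FinA

theorem uniform_root (K : Type u) [Field K] [NumberField K] {d l : ℕ} (hd : 4 ≤ d) (hl : 2 ≤ l)
    (hcop : Nat.Coprime l d) (h43 : ¬ (d = 4 ∧ l = 3)) (h52 : ¬ (d = 5 ∧ l = 2)) {ζ0 : K}
    (hζ0 : IsPrimitiveRoot ζ0 d) {lam0 : K} (hlam0 : lam0 ≠ 0) :
    ∃ B : ℕ, ∀ b : K, b ≠ 0 → ∀ P : Finset K,
      (∀ x ∈ P, PrePt (nw d (lam0 * b ^ l)) x) → P.card ≤ B := by
  classical
  have hd2 : 2 ≤ d := by omega
  have hd0 : d ≠ 0 := by omega
  have hdK : ((d : ℕ) : K) ≠ 0 := by exact_mod_cast hd0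
  set S : Set (HeightOneSpectrum (𝓞 K)) := {v | v.valuation K ((d : ℕ) : K) ≠ 1} ∪
    {v | v.valuation K lam0 ≠ 1} with hSdef
  have hS : S.Finite := (finite_nonunit K _ hdK).union (finite_nonunit K _ hlam0)
  obtain ⟨L, _, _, _, N, C1, hmain⟩ := main_step K hd hl hcop h43 h52 hζ0 S hS
  obtain ⟨C, hC1, hC2, hC3⟩ := dyn_height L (d := d) (by omega)
  set φ : K →+* L := algebraMap K L with hφ
  have hφinj : Function.Injective φ := φ.injective
  set C1' : ℝ := max C1 (C + 1) with hC1'
  -- small heights
  have hfin : {y : L | logHeight₁ y ≤ C1' + |C|}.Finite :=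
    NumberField.finite_setOfPred_logHeight₁_le L _
  set A : ℕ := d + 1 + (N + 1) with hA
  refine ⟨hfin.toFinset.card + (A + d * A + d * (d * A) + 2 * N), fun b hb P hP => ?_⟩
  set lam : K := lam0 * b ^ l with hlam
  have hlamne : lam ≠ 0 := mul_ne_zero hlam0 (pow_ne_zero _ hb)
  have hφlam : φ lam ≠ 0 := (_root_.map_ne_zero φ).mpr hlamne
  rcases lt_or_ge (logHeight₁ (φ lam)) C1' with hsmall | hlarge
  · have h1 : P.card ≤ hfin.toFinset.card := by
      refine Finset.card_le_card_of_injOn φ ?_ hφinj.injOn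
      intro x hx
      have h2 := hC1 (φ lam) (φ x) hφlam ((hP x hx).semiconj (nw_map φ d lam))
      simp only [Set.Finite.coe_toFinset, Set.mem_ofPred_eq]
      have h3 : (4:ℝ) ≤ d := by exact_mod_cast hd
      have h4 := zero_le_logHeight₁ (φ x)
      have h5 := le_abs_self C
      nlinarith
    omega
  · -- large heights
    have hL1 : C1 ≤ logHeight₁ (φ lam) := (le_max_left _ _).trans hlarge
    have hL2 : C + 1 ≤ logHeight₁ (φ lam) := (le_max_right _ _).trans hlarge
    have hzero : ∀ x : K, PrePt (nw d lam) x → x ≠ 0 := by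
      rintro x hx rfl
      have h1 := hC2 (φ lam) hφlam (by
        have := hx.semiconj (nw_map φ d lam)
        rwa [map_zero] at this)
      linarith
    have hpi : ∀ x : K, PrePt (nw d lam) x → ∀ k : ℕ, PrePt (nw d lam) ((nw d lam)^[k] x) := by
      intro x hx k
      induction k with
      | zero => exact hx
      | succ k ih => rw [Function.iterate_succ_apply']; exact pre_image ih
    have hzk : ∀ x : K, PrePt (nw d lam) x → ∀ k : ℕ, (nw d lam)^[k] x ≠ 0 := fun x hx k =>
      hzero _ (hpi x hx k)
    -- valuations outside `S`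
    have hvd : ∀ v : HeightOneSpectrum (𝓞 K), v ∉ S → v.valuation K ((d : ℕ) : K) = 1 := by
      intro v hv
      by_contra h
      exact hv (Or.inl h)
    have hvl : ∀ v : HeightOneSpectrum (𝓞 K), v ∉ S →
        ∃ γ : WithZero (Multiplicative ℤ), v.valuation K lam = γ ^ l := by
      intro v hv
      refine ⟨v.valuation K b, ?_⟩
      have h1 : v.valuation K lam0 = 1 := by
        by_contra h
        exact hv (Or.inr h)
      rw [hlam, map_mul, map_pow, h1, one_mul]
    -- membership in `T`
    have hmem : ∀ w x : K, Three d lam w → (Three d lam x ∨ Fixd d lam x) → w ^ d ≠ x ^ d →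
        (∀ v : HeightOneSpectrum (𝓞 K), v ∉ S → 1 ≤ v.valuation K lam → ∀ ζ ζ' : K, ζ ^ d = 1 →
          ζ ≠ 1 → ζ' ^ d = 1 → ζ' ≠ 1 →
          v.valuation K (w - ζ * x) = v.valuation K (w - ζ' * x)) →
        ∀ ζ ζ' : K, ζ ^ d = 1 → ζ ≠ 1 → ζ' ^ d = 1 → ζ' ≠ 1 →
          w / x ≠ ζ ∧ Sel l S ((w / x - ζ) / (w / x - ζ')) := by
      intro w x hw hx hne hval ζ ζ' hζ hζ1 hζ' hζ'1
      have hx0 : x ≠ 0 := MainA.base_ne hx
      have n1 := form_ne hne hζ
      have n2 := form_ne hne hζ'
      refine ⟨?_, ?_⟩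
      · intro hh
        apply n1
        rw [← hh, div_mul_cancel₀ _ hx0, sub_self]
      · rw [div_form hx0]
        refine ⟨div_ne_zero n1 n2, fun v hv => ?_⟩
        rcases le_or_gt 1 (v.valuation K lam) with h1 | h1
        · refine ⟨1, ?_⟩
          rw [map_div₀, hval v hv h1 ζ ζ' hζ hζ1 hζ' hζ'1, div_self, one_pow]
          exact (Valuation.ne_zero_iff _).2 n2
        · exact bad_ratio (v.valuation K) hd2 hcop (hvd v hv) hζ0 hlamne h1 (hvl v hv) hw.toTwo
            (hx.imp (fun h => h.toTwo) id) hne hζ hζ'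
    -- periodic points
    have hper : ∀ Q : Finset K, (∀ x ∈ Q, PerPt (nw d lam) x) → Q.card ≤ A := by
      intro Q hQ
      set Q0 := Q.filter (fun x => nw d lam x = x) with hQ0
      set Q1 := Q.filter (fun x => ¬ nw d lam x = x) with hQ1
      have hsum : Q0.card + Q1.card = Q.card := Finset.card_filter_add_card_filter_not _
      have h0 : Q0.card ≤ d + 1 := by
        refine card_fix (lam := lam) Q0 fun x hx => ?_
        rw [hQ0, Finset.mem_filter] at hx
        exact ⟨hzero x (hQ x hx.1).prePt, hx.2⟩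
      have h3 : ∀ x ∈ Q1, Three d lam x := by
        intro x hx
        rw [hQ1, Finset.mem_filter] at hx
        exact three_of_per (hQ x hx.1) (hzk x (hQ x hx.1).prePt) hx.2
      have hp1 : ∀ x ∈ Q1, PerPt (nw d lam) x := fun x hx => hQ x (Finset.mem_filter.1 hx).1
      have h1 : Q1.card ≤ N + 1 := by
        rcases Q1.eq_empty_or_nonempty with he | ⟨a, ha⟩
        · rw [he]; simp
        · have h1 : (Q1.erase a).card ≤ N := by
            refine hmain lam hlamne hL1 a (Or.inl (h3 a ha)) _ fun w hw => ?_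
            obtain ⟨hwa, hwQ⟩ := Finset.mem_erase.1 hw
            have hpw := hp1 w hwQ
            have hpa := hp1 a ha
            have hne : w ^ d ≠ a ^ d := fun h => hwa (hpw.inj' hpa
              ((nw_eq_iff hlamne (hzero w hpw.prePt) (hzero a hpa.prePt)).2 h))
            refine ⟨h3 w hwQ, hne, hmem w a (h3 w hwQ) (Or.inl (h3 a ha)) hne ?_⟩
            intro v hv hv1 ζ ζ' hζ hζ1 hζ' hζ'1
            exact good_per (v.valuation K) hd2 hζ0 hv1 hpw hpa (hzk w hpw.prePt)
              (hzk a hpa.prePt) hwa hζ hζ1 hζ' hζ'1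
          rw [Finset.card_erase_of_mem ha] at h1
          omega
      omega
    set P0 := P.filter (fun x => PerPt (nw d lam) x) with hP0
    set P1 := P.filter (fun x => PerPt (nw d lam) (nw d lam x)) with hP1
    set P2 := P.filter (fun x => PerPt (nw d lam) (nw d lam (nw d lam x))) with hP2
    set P3 := P.filter (fun x => ¬ PerPt (nw d lam) (nw d lam (nw d lam x))) with hP3
    have hcover : P2.card + P3.card = P.card := Finset.card_filter_add_card_filter_not _
    have hc2 : P2.card ≤ d * (d * A) := by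
      refine card_le_mul (by omega) hlamne P2 (fun x hx => hzero x (hP x (Finset.mem_filter.1 hx).1))
        (d * A) ?_
      refine card_le_mul (by omega) hlamne _ ?_ A ?_
      · intro y hy
        rw [Finset.mem_image] at hy
        obtain ⟨x, hx, rfl⟩ := hy
        exact hzk x (hP x (Finset.mem_filter.1 hx).1) 1
      · apply hper
        intro y hy
        rw [Finset.mem_image] at hy
        obtain ⟨z, hz, rfl⟩ := hy
        rw [Finset.mem_image] at hz
        obtain ⟨x, hx, rfl⟩ := hz
        exact (Finset.mem_filter.1 hx).2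
    have hthree : ∀ w ∈ P3, Three d lam w := by
      intro w hw
      rw [hP3, Finset.mem_filter] at hw
      exact three_of_not_per (hP w hw.1) (hzk w (hP w hw.1)) hw.2
    have hnotper : ∀ w ∈ P3, ¬ PerPt (nw d lam) (nw d lam w) := by
      intro w hw h
      rw [hP3, Finset.mem_filter] at hw
      exact hw.2 h.image
    have hbase : ∀ x : K, PerPt (nw d lam) x → Three d lam x ∨ Fixd d lam x := by
      intro x hx
      by_cases hf : nw d lam x = x
      · exact Or.inr ⟨hzero x hx.prePt, hf⟩
      · exact Or.inl (three_of_per hx (hzk x hx.prePt) hf)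
    -- points which never meet `x`
    have hnever : ∀ x : K, PerPt (nw d lam) x → ∀ W : Finset K, (∀ w ∈ W, w ∈ P3 ∧
        ∀ k : ℕ, (nw d lam)^[k] w ≠ (nw d lam)^[k] x) → W.card ≤ N := by
      intro x hx W hW
      refine hmain lam hlamne hL1 x (hbase x hx) W fun w hw => ?_
      obtain ⟨hw1, hw2⟩ := hW w hw
      have hw3 := hthree w hw1
      have hne : w ^ d ≠ x ^ d := by
        intro hh
        apply hw2 1
        simpa using (nw_eq_iff hlamne hw3.ne0 (hzero x hx.prePt)).2 hh
      refine ⟨hw3, hne, hmem w x hw3 (hbase x hx) hne ?_⟩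
      intro v hv hv1 ζ ζ' hζ _ hζ' _
      exact good_tail (v.valuation K) hd2 hζ0 hv1 hw3.pre hw3.ne (hnotper w hw1) hx
        (hzk x hx.prePt) hw2 hζ hζ'
    have hc3 : P3.card ≤ 2 * N := by
      by_cases htwo : ∃ x x' : K, PerPt (nw d lam) x ∧ PerPt (nw d lam) x' ∧ x ≠ x'
      · obtain ⟨x, x', hx, hx', hne⟩ := htwo
        set W := P3.filter (fun w => ∀ k : ℕ, (nw d lam)^[k] w ≠ (nw d lam)^[k] x) with hW
        set W' := P3.filter (fun w => ∀ k : ℕ, (nw d lam)^[k] w ≠ (nw d lam)^[k] x') with hW'
        have h1 : P3 ⊆ W ∪ W' := by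
          intro w hw
          rw [Finset.mem_union]
          rcases meets (w := w) hx hx' hne with h1 | h1
          · exact Or.inl (Finset.mem_filter.2 ⟨hw, h1⟩)
          · exact Or.inr (Finset.mem_filter.2 ⟨hw, h1⟩)
        have h2 : W.card ≤ N := hnever x hx W (fun w hw => Finset.mem_filter.1 hw)
        have h3 : W'.card ≤ N := hnever x' hx' W' (fun w hw => Finset.mem_filter.1 hw)
        calc P3.card ≤ (W ∪ W').card := Finset.card_le_card h1
          _ ≤ W.card + W'.card := Finset.card_union_le _ _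
          _ ≤ 2 * N := by omega
      · push Not at htwo
        rcases P3.eq_empty_or_nonempty with he | ⟨w0, hw0⟩
        · rw [he]; simp
        · obtain ⟨m0, hm0⟩ := (hthree w0 hw0).pre.exists_per
          set u := (nw d lam)^[m0] w0 with hu
          have hfix : nw d lam u = u := htwo _ _ hm0.image hm0
          have hux : u ≠ 0 := hzero u hm0.prePt
          have huF : Fixd d lam u := ⟨hux, hfix⟩
          have h1 : P3.card ≤ N := by
            refine hmain lam hlamne hL1 u (Or.inr huF) P3 fun w hw => ?_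
            have hw3 := hthree w hw
            have hfw : nw d lam w ≠ u := by
              intro hh
              apply hnotper w hw
              rw [hh]
              exact hm0
            obtain ⟨m, hm⟩ := hw3.pre.exists_per
            have hmu : (nw d lam)^[m] w = u := htwo _ _ hm hm0
            have hne : w ^ d ≠ u ^ d := by
              intro hh
              apply hfw
              rw [(nw_eq_iff hlamne hw3.ne0 hux).2 hh, hfix]
            refine ⟨hw3, hne, hmem w u hw3 (Or.inr huF) hne ?_⟩
            intro v hv hv1 ζ ζ' hζ _ hζ' _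
            exact good_fixed (v.valuation K) hd2 (hvd v hv) hζ0 hv1 hw3.ne huF hfw ⟨m, hmu⟩ hζ hζ'
          omega
    have : d * (d * A) ≤ A + d * A + d * (d * A) := by omega
    omega

end UBN
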