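import Pool.Agent.UBN.NArch
import Pool.Agent.UBN.AnyV
import Pool.Agent.UBC.LocGlob

/-!
# Heights of preperiodic points of `lam / z ^ d + 1`
-/

set_option autoImplicit false

universe u

namespace UBN

open UBC Height NumberField AdmissibleAbsValues

namespace HtAux

/-- the height of the image -/
theorem ht_image {L : Type*} [Field L] [AdmissibleAbsValues L] {d : ℕ} {lam z : L}
    (hlam : lam ≠ 0) (hz : z ≠ 0) :
    (d : ℝ) * logHeight₁ z ≤
      logHeight₁ lam + logHeight₁ (nw d lam z) + totalWeight L * Real.log 2 := by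
  have hzd : z ^ d ≠ 0 := pow_ne_zero _ hz
  have h1 : z ^ d = lam * (nw d lam z - 1)⁻¹ := by
    unfold nw
    rw [add_sub_cancel_right, inv_div]
    field_simp
  have h2 := logHeight₁_mul_le lam (nw d lam z - 1)⁻¹
  rw [← h1, logHeight₁_pow, logHeight₁_inv] at h2
  have h3 := logHeight₁_sub_le (nw d lam z) (1 : L)
  rw [logHeight₁_one, add_zero] at h3
  linarith

/-- the height of a preperiodic point -/
theorem ht_pre {L : Type*} [Field L] [AdmissibleAbsValues L] {d : ℕ} (hd : 1 ≤ d) {lam x : L}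
    (hlam : lam ≠ 0) (hx : PrePt (nw d lam) x) :
    ((d : ℝ) - 1) * logHeight₁ x ≤ logHeight₁ lam + totalWeight L * Real.log 2 := by
  have hW : 0 ≤ (totalWeight L : ℝ) * Real.log 2 := by positivity
  have hd1 : (0 : ℝ) ≤ (d : ℝ) - 1 := by
    have : (1 : ℝ) ≤ d := by exact_mod_cast hd
    linarith
  have hfin : (Set.range fun k : ℕ => (nw d lam)^[k] x).Finite := by
    exact hx
  obtain ⟨z, ⟨k, rfl⟩, hmax⟩ := Set.exists_max_image _ logHeight₁ hfin ⟨_, 0, rfl⟩
  have h0 : logHeight₁ x ≤ logHeight₁ ((nw d lam)^[k] x) := hmax _ ⟨0, rfl⟩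
  have h1 : logHeight₁ (nw d lam ((nw d lam)^[k] x)) ≤ logHeight₁ ((nw d lam)^[k] x) :=
    hmax _ ⟨k + 1, Function.iterate_succ_apply' _ _ _⟩
  have h2 := mul_le_mul_of_nonneg_left h0 hd1
  rcases eq_or_ne ((nw d lam)^[k] x) 0 with hz | hz
  · rw [hz, logHeight₁_zero, mul_zero] at h2
    have := zero_le_logHeight₁ lam
    linarith
  · have h3 := ht_image (d := d) hlam hz
    linarith

/-- constants for the places -/
theorem exists_const (L : Type*) [Field L] [NumberField L] {d : ℕ} (hd : 2 ≤ d) :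
    ∃ B : AbsoluteValue L ℝ → ℝ, Ok L B ∧ ∀ v, IsPl L v → ∀ lam w x : L, lam ≠ 0 →
      Three d lam w → (Three d lam x ∨ Fixd d lam x) → w ^ d ≠ x ^ d →
      max (v lam⁻¹) 1 ≤ B v * (max (v (w / x)⁻¹) 1 ^ d * max (v ((w / x) ^ d - 1)⁻¹) 1 ^ d) := by
  classical
  have hd0 : ((d : ℕ) : L) ≠ 0 := Nat.cast_ne_zero.2 (by omega)
  choose B0 hB1 hB2 using fun v : AbsoluteValue L ℝ => near_any v hd
  refine ⟨fun v => if v ∈ nonarchAbsVal (K := L) ∧ v (d : L) = 1 then 1 else B0 v,
    ⟨fun v => ?_, ?_⟩, fun v _ lam w x hlam hw hx hne => ?_⟩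
  · dsimp only
    split_ifs
    · exact le_rfl
    · exact hB1 v
  · have h1 := AdmissibleAbsValues.hasFiniteMulSupport hd0
    have h2 : (Subtype.val '' (Function.mulSupport
        fun v : nonarchAbsVal (K := L) => v.val (d : L))).Finite := Set.Finite.image _ h1
    refine h2.subset ?_
    rintro v ⟨hv, hne⟩
    refine ⟨⟨v, hv⟩, ?_, rfl⟩
    rw [Function.mem_mulSupport]
    intro h3
    exact hne (if_pos ⟨hv, h3⟩)
  · dsimp only
    split_ifs with hv
    · rw [one_mul]
      exact near_nonarch v (AdmissibleAbsValues.isNonarchimedean v hv.1) hd hv.2 hlam hw hx hne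
    · exact hB2 v lam w x hlam hw hx hne

end HtAux

open HtAux

theorem dyn_height (L : Type u) [Field L] [NumberField L] {d : ℕ} (hd : 3 ≤ d) : ∃ C : ℝ,
    (∀ lam x : L, lam ≠ 0 → PrePt (nw d lam) x →
      ((d : ℝ) - 1) * logHeight₁ x ≤ logHeight₁ lam + C) ∧
    (∀ lam : L, lam ≠ 0 → PrePt (nw d lam) 0 → logHeight₁ lam ≤ C) ∧
    (∀ lam w x : L, lam ≠ 0 → Three d lam w → (Three d lam x ∨ Fixd d lam x) → w ^ d ≠ x ^ d →
      logHeight₁ lam ≤ ((d : ℝ) ^ 2 + d) * logHeight₁ (w / x) + C) := by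
  obtain ⟨B, hB, hloc⟩ := exists_const L (show 2 ≤ d by omega)
  obtain ⟨C, hC⟩ := height_le_of_local L B hB
  set W : ℝ := totalWeight L * Real.log 2 with hW
  have hW0 : 0 ≤ W := by positivity
  have hd3 : (3 : ℝ) ≤ d := by exact_mod_cast hd
  have hdW : W ≤ (d : ℝ) * W := by nlinarith
  refine ⟨|C| + d * W, ?_, ?_, ?_⟩
  · intro lam x hlam hx
    have h1 := ht_pre (show 1 ≤ d by omega) hlam hx
    have h2 := abs_nonneg C
    linarith
  · intro lam hlam h0
    have h1 : nw d lam 0 = 1 := by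
      unfold nw
      rw [zero_pow (by omega), div_zero, zero_add]
    have h2 : PrePt (nw d lam) (1 + lam) := by
      have h3 := pre_image (pre_image h0)
      rw [h1] at h3
      have h4 : nw d lam 1 = 1 + lam := by
        unfold nw
        rw [one_pow, div_one, add_comm]
      rwa [h4] at h3
    have h3 := ht_pre (show 1 ≤ d by omega) hlam h2
    have h4 := logHeight₁_sub_le (1 + lam) (1 : L)
    rw [add_sub_cancel_left, logHeight₁_one, add_zero] at h4
    have h5 := zero_le_logHeight₁ lam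
    have h6 := abs_nonneg C
    have h7 : ((d : ℝ) - 1) * (logHeight₁ lam - W) ≤ logHeight₁ lam + W := by
      refine le_trans (mul_le_mul_of_nonneg_left ?_ (by linarith)) h3
      linarith
    nlinarith
  · intro lam w x hlam hw hx hne
    have h := hC Bool lam⁻¹ (fun b => if b then (w / x)⁻¹ else ((w / x) ^ d - 1)⁻¹) d
      (fun v hv => by
        rw [Fintype.prod_bool]
        exact hloc v hv lam w x hlam hw hx hne)
    rw [Fintype.sum_bool, logHeight₁_inv] at h
    simp only [if_true, Bool.false_eq_true, if_false] at h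
    rw [logHeight₁_inv, logHeight₁_inv] at h
    have h5 := logHeight₁_sub_le ((w / x) ^ d) (1 : L)
    rw [logHeight₁_one, logHeight₁_pow, add_zero] at h5
    have h6 := le_abs_self C
    have h7 : (d : ℝ) * logHeight₁ ((w / x) ^ d - 1) ≤
        d * (W + d * logHeight₁ (w / x)) := mul_le_mul_of_nonneg_left h5 (by linarith)
    linarith

end UBN
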