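import Pool.Agent.UBN.Ht
import Pool.Agent.UBC.ExGapT

/-!
# The main step: few preperiodic points with ratio in `T`
-/

set_option autoImplicit false

universe u

namespace UBN

open UBC Height NumberField IsDedekindDomain Polynomial

namespace MainA

theorem base_pre {K : Type*} [Field K] {d : ℕ} {lam x : K} (hx : Three d lam x ∨ Fixd d lam x) :
    PrePt (nw d lam) x := by
  rcases hx with h | h
  · exact h.pre
  · exact PerPt.prePt ⟨1, one_pos, h.fix⟩

theorem base_ne {K : Type*} [Field K] {d : ℕ} {lam x : K} (hx : Three d lam x ∨ Fixd d lam x) :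
    x ≠ 0 := by
  rcases hx with h | h
  · exact h.ne0
  · exact h.ne

/-- upper bound for the height of the ratio -/
theorem upper (L : Type*) [Field L] [NumberField L] {d : ℕ} (hd : 4 ≤ d) {C : ℝ}
    (hC : ∀ lam x : L, lam ≠ 0 → PrePt (nw d lam) x →
      ((d : ℝ) - 1) * logHeight₁ x ≤ logHeight₁ lam + C)
    {lam w x : L} (hlam : lam ≠ 0) (hw : PrePt (nw d lam) w) (hx : PrePt (nw d lam) x)
    (hl : |C| ≤ logHeight₁ lam) : logHeight₁ (w / x) ≤ 3 * logHeight₁ lam := by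
  have h1 := hC lam w hlam hw
  have h2 := hC lam x hlam hx
  have h3 : logHeight₁ (w / x) ≤ logHeight₁ w + logHeight₁ x := by
    rw [div_eq_mul_inv, ← logHeight₁_inv x]
    exact logHeight₁_mul_le _ _
  have h4 : (4:ℝ) ≤ d := by exact_mod_cast hd
  have h5 := le_abs_self C
  have h6 := zero_le_logHeight₁ w
  have h7 := zero_le_logHeight₁ x
  have h8 : 3 * (logHeight₁ w + logHeight₁ x) ≤
      ((d : ℝ) - 1) * (logHeight₁ w + logHeight₁ x) :=
    mul_le_mul_of_nonneg_right (by linarith) (by linarith)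
  have h9 : ((d : ℝ) - 1) * (logHeight₁ w + logHeight₁ x) =
      ((d : ℝ) - 1) * logHeight₁ w + ((d : ℝ) - 1) * logHeight₁ x := by ring
  linarith

theorem gap_case (K : Type u) [Field K] [NumberField K] {d : ℕ} (hd : 4 ≤ d) (T : Set K)
    (L : Type u) [Field L] [NumberField L] [Algebra K L]
    (hG : Gap (fun t : K => logHeight₁ (algebraMap K L t)) T) :
    ∃ (N : ℕ) (C1 : ℝ), ∀ lam : K, lam ≠ 0 → C1 ≤ logHeight₁ (algebraMap K L lam) →
      ∀ x : K, (Three d lam x ∨ Fixd d lam x) → ∀ W : Finset K,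
        (∀ w ∈ W, Three d lam w ∧ w ^ d ≠ x ^ d ∧ w / x ∈ T) → W.card ≤ N := by
  classical
  obtain ⟨C, hC1, -, hC3⟩ := dyn_height L (d := d) (by omega)
  set D : ℝ := (d : ℝ) ^ 2 + d with hD
  have hd4 : (4 : ℝ) ≤ d := by exact_mod_cast hd
  have hD0 : 0 < D := by positivity
  obtain ⟨N, H0, hN⟩ := hG (6 * D)
  have hdd : (0 : ℝ) < 2 * D := by positivity
  refine ⟨N, max (2 * |C|) (2 * D * |H0|), ?_⟩
  intro lam hlam hl x hx W hW
  have hx0 : x ≠ 0 := base_ne hx
  set φ : K →+* L := algebraMap K L with hφ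
  have hinj : Function.Injective φ := φ.injective
  have hcard : (W.image (fun w => w / x)).card = W.card := by
    apply Finset.card_image_of_injective
    intro a b hab
    exact (div_left_inj' hx0).1 hab
  rw [← hcard]
  have hl1 : 2 * |C| ≤ logHeight₁ (φ lam) := (le_max_left _ _).trans hl
  have hl2 : 2 * D * |H0| ≤ logHeight₁ (φ lam) := (le_max_right _ _).trans hl
  have hlamL : φ lam ≠ 0 := by rwa [Ne, map_eq_zero]
  have hCabs := le_abs_self C
  have hC0 := abs_nonneg C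
  have hxL : Three d (φ lam) (φ x) ∨ Fixd d (φ lam) (φ x) :=
    hx.imp (fun h => h.map φ) (fun h => h.map φ)
  refine hN (logHeight₁ (φ lam) / (2 * D)) ?_ _ ?_
  · rw [le_div_iff₀ hdd]
    calc H0 * (2 * D) ≤ |H0| * (2 * D) :=
          mul_le_mul_of_nonneg_right (le_abs_self _) hdd.le
      _ = 2 * D * |H0| := by ring
      _ ≤ _ := hl2
  · intro t ht
    rw [Finset.mem_image] at ht
    obtain ⟨w, hw, rfl⟩ := ht
    obtain ⟨hw1, hw2, hw3⟩ := hW w hw
    have hwx : (φ w) ^ d ≠ (φ x) ^ d := by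
      rw [← map_pow, ← map_pow]
      exact fun hh => hw2 (hinj hh)
    have e1 : φ (w / x) = φ w / φ x := map_div₀ φ w x
    refine ⟨hw3, ?_, ?_⟩
    · show logHeight₁ (φ lam) / (2 * D) ≤ logHeight₁ (φ (w / x))
      have h1 := hC3 (φ lam) (φ w) (φ x) hlamL (hw1.map φ) hxL hwx
      rw [e1, div_le_iff₀ hdd]
      linarith
    · show logHeight₁ (φ (w / x)) ≤ 6 * D * (logHeight₁ (φ lam) / (2 * D))
      have h2 := upper L hd hC1 hlamL (hw1.map φ).pre (base_pre hxL) (by linarith)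
      have h3 : 6 * D * (logHeight₁ (φ lam) / (2 * D)) = 3 * logHeight₁ (φ lam) := by
        field_simp
        ring
      rw [e1, h3]
      exact h2

end MainA

open MainA

theorem main_step (K : Type u) [Field K] [NumberField K] {d l : ℕ} (hd : 4 ≤ d) (hl : 2 ≤ l)
    (hcop : Nat.Coprime l d) (h43 : ¬ (d = 4 ∧ l = 3)) (h52 : ¬ (d = 5 ∧ l = 2)) {ζ0 : K}
    (hζ0 : IsPrimitiveRoot ζ0 d) (S : Set (HeightOneSpectrum (𝓞 K))) (hS : S.Finite) :
    ∃ (L : Type u) (_ : Field L) (_ : NumberField L) (_ : Algebra K L) (N : ℕ) (C1 : ℝ),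
      ∀ lam : K, lam ≠ 0 → C1 ≤ logHeight₁ (algebraMap K L lam) →
      ∀ x : K, (Three d lam x ∨ Fixd d lam x) → ∀ W : Finset K,
        (∀ w ∈ W, Three d lam w ∧ w ^ d ≠ x ^ d ∧
          ∀ ζ ζ' : K, ζ ^ d = 1 → ζ ≠ 1 → ζ' ^ d = 1 → ζ' ≠ 1 →
            w / x ≠ ζ ∧ Sel l S ((w / x - ζ) / (w / x - ζ'))) → W.card ≤ N := by
  obtain ⟨L, i1, i2, i3, hG⟩ := exists_gap_T K hd hl hcop h43 h52 hζ0 S hS
  obtain ⟨N, C1, h⟩ := gap_case K hd _ L hG
  exact ⟨L, i1, i2, i3, N, C1, h⟩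

end UBN
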