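import Pool.Agent.UBN.Defs

/-!
# Nonarchimedean absolute values at which `lam` is small
-/

set_option autoImplicit false

namespace UBN

open UBC

namespace NArchAux

variable {K : Type*} [Field K] (v : AbsoluteValue K ℝ) {d : ℕ} {lam : K}

theorem sub_le (hv : IsNonarchimedean v) (a b : K) : v (a - b) ≤ max (v a) (v b) := by
  have := hv a (-b)
  rwa [← sub_eq_add_neg, v.map_neg] at this

theorem val_one (hv : IsNonarchimedean v) {a : K} (ha : v (a - 1) < 1) : v a = 1 := by
  apply le_antisymm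
  · have h1 := hv (a - 1) 1
    rw [sub_add_cancel, v.map_one] at h1
    exact h1.trans (max_le ha.le le_rfl)
  · have h1 := sub_le v hv a (a - 1)
    rw [sub_sub_cancel, v.map_one] at h1
    rcases le_max_iff.1 h1 with h | h
    · exact h
    · exact absurd h (not_le.2 ha)

theorem pow_sub_le (hv : IsNonarchimedean v) {a b : K} (ha : v a ≤ 1) (hb : v b ≤ 1) (n : ℕ) :
    v (a ^ n - b ^ n) ≤ v (a - b) := by
  induction n with
  | zero => simp
  | succ n ih =>
    have e : a ^ (n + 1) - b ^ (n + 1) = a * (a ^ n - b ^ n) + b ^ n * (a - b) := by ring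
    rw [e]
    refine (hv _ _).trans (max_le ?_ ?_)
    · rw [v.map_mul]
      calc v a * v (a ^ n - b ^ n) ≤ 1 * v (a - b) :=
            mul_le_mul ha ih (v.nonneg _) zero_le_one
        _ = v (a - b) := one_mul _
    · rw [v.map_mul, v.map_pow]
      calc v b ^ n * v (a - b) ≤ 1 * v (a - b) :=
            mul_le_mul_of_nonneg_right (pow_le_one₀ (v.nonneg _) hb) (v.nonneg _)
        _ = v (a - b) := one_mul _

theorem ne_zero_of_one {a : K} (h : v a = 1) : a ≠ 0 := by
  rintro rfl
  rw [v.map_zero] at h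
  exact zero_ne_one h

theorem contr (hv : IsNonarchimedean v) {a b : K} (ha : v a = 1) (hb : v b = 1) :
    v (nw d lam a - nw d lam b) ≤ v lam * v (a - b) := by
  rw [nw_sub (ne_zero_of_one v ha) (ne_zero_of_one v hb), map_div₀, v.map_mul, v.map_mul,
    v.map_pow, v.map_pow, ha, hb, one_pow, mul_one, div_one, v.map_sub (b ^ d) (a ^ d)]
  exact mul_le_mul_of_nonneg_left (pow_sub_le v hv ha.le hb.le d) (v.nonneg _)

theorem near_one {z : K} (hz : z ≠ 0) (h : v lam < v z ^ d) : v (nw d lam z - 1) < 1 := by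
  have e : nw d lam z - 1 = lam / z ^ d := by
    unfold nw
    ring
  rw [e, map_div₀, v.map_pow, div_lt_one (pow_pos (v.pos hz) _)]
  exact h

theorem disc (hv : IsNonarchimedean v) (hl : v lam < 1) {a : K} (ha : v (a - 1) < 1) :
    v (nw d lam a - 1) < 1 := by
  have h1 := val_one v hv ha
  refine near_one v (ne_zero_of_one v h1) ?_
  rw [h1, one_pow]
  exact hl

theorem disc_iter (hv : IsNonarchimedean v) (hl : v lam < 1) {a : K} (ha : v (a - 1) < 1)
    (k : ℕ) : v ((nw d lam)^[k] a - 1) < 1 := by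
  induction k with
  | zero => exact ha
  | succ k ih =>
    rw [Function.iterate_succ_apply']
    exact disc v hv hl ih

theorem contr_iter (hv : IsNonarchimedean v) (hl : v lam < 1) {a b : K}
    (ha : v (a - 1) < 1) (hb : v (b - 1) < 1) (k : ℕ) :
    v ((nw d lam)^[k] a - (nw d lam)^[k] b) ≤ v lam ^ k * v (a - b) := by
  induction k with
  | zero => simp
  | succ k ih =>
    rw [Function.iterate_succ_apply', Function.iterate_succ_apply']
    refine (contr v hv (val_one v hv (disc_iter v hv hl ha k))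
      (val_one v hv (disc_iter v hv hl hb k))).trans ?_
    rw [pow_succ', mul_assoc]
    exact mul_le_mul_of_nonneg_left ih (v.nonneg _)

/-- a preperiodic point in the disc is fixed if it is periodic -/
theorem fix_of_per (hv : IsNonarchimedean v) (hl : v lam < 1) {a : K}
    (ha : v (a - 1) < 1) (hp : PerPt (nw d lam) a) : nw d lam a = a := by
  obtain ⟨n, hn, h2⟩ := hp
  have h3 := contr_iter (d := d) v hv hl (disc (d := d) v hv hl ha) ha n
  rw [← Function.iterate_succ_apply, Function.iterate_succ_apply', h2] at h3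
  by_contra hne
  have h4 : 0 < v (nw d lam a - a) := v.pos (sub_ne_zero.2 hne)
  have h5 : v lam ^ n < 1 := pow_lt_one₀ (v.nonneg _) hl hn.ne'
  nlinarith

/-- the orbit of a large point ends in a fixed point near `1` -/
theorem fix_of_large (hv : IsNonarchimedean v)
    (hroot : ∀ ζ : K, ζ ^ d = 1 → ζ ≠ 1 → ¬ v (ζ - 1) < 1)
    (hlam : lam ≠ 0) (hl : v lam < 1) : ∀ (m : ℕ) (a : K), v (a - 1) < 1 →
      PerPt (nw d lam) ((nw d lam)^[m] a) → nw d lam a = a := by
  intro m
  induction m with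
  | zero => intro a ha hp; exact fix_of_per v hv hl ha hp
  | succ m ih =>
    intro a ha hp
    rw [Function.iterate_succ_apply] at hp
    have ha1 := disc (d := d) v hv hl ha
    have h1 := ih _ ha1 hp
    have ha0 := ne_zero_of_one v (val_one v hv ha)
    have hf0 := ne_zero_of_one v (val_one v hv ha1)
    have h2 := (nw_eq_iff hlam hf0 ha0).1 h1
    by_contra hne
    have h3 : (nw d lam a / a) ^ d = 1 := by
      rw [div_pow, h2, div_self (pow_ne_zero _ ha0)]
    have h4 : nw d lam a / a ≠ 1 := by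
      intro h
      exact hne ((div_eq_one_iff_eq ha0).1 h)
    apply hroot _ h3 h4
    have e : nw d lam a / a - 1 = ((nw d lam a - 1) - (a - 1)) / a := by
      field_simp
      ring
    rw [e, map_div₀, val_one v hv ha, div_one]
    exact (sub_le v hv _ _).trans_lt (max_lt ha1 ha)

/-- the two kinds of preperiodic points -/
theorem dicho (hv : IsNonarchimedean v) (hd : d ≠ 0)
    (hroot : ∀ ζ : K, ζ ^ d = 1 → ζ ≠ 1 → ¬ v (ζ - 1) < 1)
    (hlam : lam ≠ 0) (hl : v lam < 1) {z : K} (hz : z ≠ 0) (hp : PrePt (nw d lam) z) :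
    v z ^ d = v lam ∨ (v z = 1 ∧ nw d lam (nw d lam z) = nw d lam z) := by
  have hlarge : ∀ z : K, z ≠ 0 → PrePt (nw d lam) z → v lam < v z ^ d →
      v z = 1 ∧ nw d lam (nw d lam z) = nw d lam z := by
    intro z hz hp h
    have h1 := near_one v hz h
    obtain ⟨m, hm⟩ := (pre_image hp).exists_per
    have h2 := fix_of_large v hv hroot hlam hl m _ h1 hm
    have h3 := val_one v hv h1
    have h4 := (nw_eq_iff hlam (ne_zero_of_one v h3) hz).1 h2
    have h5 : v z ^ d = 1 := by
      rw [← v.map_pow, ← h4, v.map_pow, h3, one_pow]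
    exact ⟨(pow_eq_one_iff_of_nonneg (v.nonneg z) hd).1 h5, h2⟩
  rcases lt_trichotomy (v z ^ d) (v lam) with h | h | h
  · exfalso
    have hzd : 0 < v z ^ d := pow_pos (v.pos hz) _
    have h1 : 1 < v (lam / z ^ d) := by
      rw [map_div₀, v.map_pow, one_lt_div hzd]
      exact h
    have h2 : 1 < v (nw d lam z) := by
      by_contra h3
      rw [not_lt] at h3
      have h4 := sub_le v hv (nw d lam z) 1
      rw [v.map_one, max_eq_right h3] at h4
      have e : nw d lam z - 1 = lam / z ^ d := by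
        unfold nw
        ring
      rw [e] at h4
      exact absurd h1 (not_lt.2 h4)
    have h3 : nw d lam z ≠ 0 := by
      intro h0
      rw [h0, v.map_zero] at h2
      linarith
    have h4 := (hlarge _ h3 (pre_image hp) (hl.trans_le (one_le_pow₀ h2.le))).1
    rw [h4] at h2
    exact lt_irrefl _ h2
  · exact Or.inl h
  · exact Or.inr (hlarge z hz hp h)

end NArchAux

open NArchAux

theorem near_nonarch {K : Type*} [Field K] (v : AbsoluteValue K ℝ) (hv : IsNonarchimedean v)
    {d : ℕ} (hd : 2 ≤ d) (hvd : v (d : K) = 1) {lam : K} (hlam : lam ≠ 0) {w x : K}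
    (hw : Three d lam w) (hx : Three d lam x ∨ Fixd d lam x) (hne : w ^ d ≠ x ^ d) :
    max (v lam⁻¹) 1 ≤ max (v (w / x)⁻¹) 1 ^ d * max (v ((w / x) ^ d - 1)⁻¹) 1 ^ d := by
  have hone : ∀ a : ℝ, 1 ≤ max a 1 ^ d := fun a => one_le_pow₀ (le_max_right _ _)
  have hp1 := hone (v (w / x)⁻¹)
  have hp2 := hone (v ((w / x) ^ d - 1)⁻¹)
  rcases le_or_gt 1 (v lam) with hl | hl
  · have h1 : v lam⁻¹ ≤ 1 := by
      rw [map_inv₀]
      exact inv_le_one_of_one_le₀ hl
    rw [max_eq_right h1]
    exact one_le_mul_of_one_le_of_one_le hp1 hp2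
  have hroot : ∀ ζ : K, ζ ^ d = 1 → ζ ≠ 1 → ¬ v (ζ - 1) < 1 := by
    intro ζ hζ hζ1 h
    have hζv : v ζ = 1 := val_one v hv h
    have hg : ∑ i ∈ Finset.range d, ζ ^ i = 0 := by
      have h1 := mul_geom_sum ζ d
      rw [hζ, sub_self] at h1
      exact (mul_eq_zero.1 h1).resolve_left (sub_ne_zero.2 hζ1)
    have hs : ∀ n : ℕ, v (∑ i ∈ Finset.range n, ζ ^ i - n) < 1 := by
      intro n
      induction n with
      | zero => simp
      | succ n ih =>
        have e : ∑ i ∈ Finset.range (n + 1), ζ ^ i - ((n + 1 : ℕ) : K) =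
            (∑ i ∈ Finset.range n, ζ ^ i - n) + (ζ ^ n - 1 ^ n) := by
          rw [Finset.sum_range_succ, one_pow]
          push_cast
          ring
        rw [e]
        refine (hv _ _).trans_lt (max_lt ih ?_)
        exact (pow_sub_le v hv hζv.le v.map_one.le n).trans_lt h
    have h2 := hs d
    rw [hg, zero_sub, v.map_neg, hvd] at h2
    exact lt_irrefl _ h2
  have hl0 : 0 < v lam := v.pos hlam
  have hle : max (v lam⁻¹) 1 = (v lam)⁻¹ := by
    rw [map_inv₀]
    exact max_eq_left ((one_le_inv₀ hl0).2 hl.le)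
  rw [hle]
  have hd0 : d ≠ 0 := by omega
  have hw0 := hw.ne0
  have htwo : ∀ z : K, Two d lam z → v z ^ d = v lam := by
    intro z hz
    rcases dicho v hv hd0 hroot hlam hl hz.ne0 hz.pre with h | h
    · exact h
    · exact absurd h.2 hz.two
  have hvw := htwo w hw.toTwo
  have hvFw := htwo _ hw.image
  -- the case of a base point of value `g`
  have hmain : x ≠ 0 → v x ^ d = v lam → v (nw d lam x) ^ d = v lam →
      (v lam)⁻¹ ≤ max (v (w / x)⁻¹) 1 ^ d * max (v ((w / x) ^ d - 1)⁻¹) 1 ^ d := by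
    intro hx0 hvx hvFx
    have hxd : x ^ d ≠ 0 := pow_ne_zero _ hx0
    have hwd : w ^ d ≠ 0 := pow_ne_zero _ hw0
    have hsub : w ^ d - x ^ d ≠ 0 := sub_ne_zero.2 hne
    have e1 : (w / x) ^ d - 1 = (w ^ d - x ^ d) / x ^ d := by
      rw [div_pow, sub_div, div_self hxd]
    have e2 : v ((w / x) ^ d - 1) = v (nw d lam w - nw d lam x) := by
      rw [e1, nw_sub hw0 hx0, map_div₀, map_div₀, v.map_mul, v.map_mul, v.map_pow x, v.map_pow w,
        hvx, hvw, v.map_sub (x ^ d)]
      field_simp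
    have e3 : v ((w / x) ^ d - 1) ^ d ≤ v lam := by
      rw [e2]
      refine (pow_le_pow_left₀ (v.nonneg _) (sub_le v hv _ _) d).trans ?_
      rcases max_choice (v (nw d lam w)) (v (nw d lam x)) with h | h
      · rw [h, hvFw]
      · rw [h, hvFx]
    have e4 : 0 < v ((w / x) ^ d - 1) := by
      apply v.pos
      rw [e1]
      exact div_ne_zero hsub hxd
    calc (v lam)⁻¹ ≤ (v ((w / x) ^ d - 1) ^ d)⁻¹ := inv_anti₀ (pow_pos e4 d) e3
      _ = v ((w / x) ^ d - 1)⁻¹ ^ d := by rw [map_inv₀, inv_pow]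
      _ ≤ max (v ((w / x) ^ d - 1)⁻¹) 1 ^ d :=
          pow_le_pow_left₀ (v.nonneg _) (le_max_left _ _) d
      _ = 1 * max (v ((w / x) ^ d - 1)⁻¹) 1 ^ d := (one_mul _).symm
      _ ≤ _ := mul_le_mul_of_nonneg_right hp1 (by linarith)
  rcases hx with hx | hx
  · exact hmain hx.ne0 (htwo x hx.toTwo) (htwo _ hx.image)
  · rcases dicho v hv hd0 hroot hlam hl hx.ne (PerPt.prePt ⟨1, one_pos, hx.fix⟩) with h | h
    · exact hmain hx.ne h (by rw [hx.fix]; exact h)
    · have h1 : v (w / x) ^ d = v lam := by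
        rw [map_div₀, h.1, div_one, hvw]
      calc (v lam)⁻¹ = v (w / x)⁻¹ ^ d := by rw [map_inv₀, inv_pow, h1]
        _ ≤ max (v (w / x)⁻¹) 1 ^ d := pow_le_pow_left₀ (v.nonneg _) (le_max_left _ _) d
        _ = max (v (w / x)⁻¹) 1 ^ d * 1 := (mul_one _).symm
        _ ≤ _ := mul_le_mul_of_nonneg_left hp2 (by linarith)

end UBN
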